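import Pool.Agent.P8H75.SU.Sym

set_option autoImplicit false
set_option linter.unusedSectionVars false

/-!
# The uniform deviation of absolute values over an absolutely convex hull
-/

namespace Pool.Agent.P8H75.SU

open Finset

variable {α : Type*} [DecidableEq α]

/-- symmetrization -/
theorem symm {H : Type*} {p : ℝ} (h0 : 0 < p) (h1 : p ≤ 1) (X : Finset α) (hX : X.Nonempty)
    (x : H → α → ℝ) (hx : ∀ h, ∀ n ∈ X, |x h n| ≤ 1) (u : ℝ) (hu0 : 0 ≤ u)
    (hu : 12 * (p * X.card) ≤ u ^ 2) (hu' : u ≤ 4 * (p * X.card)) (s : ℝ) (hs : s = 1 ∨ s = -1) :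
    ∑ S ∈ X.powerset, wt p X S *
        ind (∃ h, u < s * (∑ n ∈ S, |x h n| - p * ∑ n ∈ X, |x h n|)) ≤
      2 * ∑ q ∈ X.powerset ×ˢ X.powerset, wt p X q.1 * wt p X q.2 *
        ind (∃ h, u / 2 < ∑ n ∈ X, s * (io q.1 n - io q.2 n) * |x h n|) := by
  rw [sum_product, mul_sum]
  refine sum_le_sum fun S hS => ?_
  by_cases hP : ∃ h, u < s * (∑ n ∈ S, |x h n| - p * ∑ n ∈ X, |x h n|)
  · obtain ⟨h, hh⟩ := hP
    rw [ind_true ⟨h, hh⟩, mul_one]
    have hg := ghost h0 h1 X hX (fun n => |x h n|) (fun n hn => ⟨abs_nonneg _, hx h n hn⟩) u hu0 hu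
      hu' s hs
    have hone := wt_sum p X
    have h3 : (1 : ℝ) / 2 ≤ ∑ S' ∈ X.powerset, wt p X S' *
        ind (∃ h, u / 2 < ∑ n ∈ X, s * (io S n - io S' n) * |x h n|) := by
      have h4 : ∀ S' ∈ X.powerset, wt p X S' ≤ wt p X S' *
          ind (∃ h, u / 2 < ∑ n ∈ X, s * (io S n - io S' n) * |x h n|) +
          wt p X S' * ind (u / 2 < s * (∑ n ∈ S', |x h n| - p * ∑ n ∈ X, |x h n|)) := by
        intro S' hS'
        have hw := wt_nonneg h0.le h1 X S'
        by_cases hQ : u / 2 < s * (∑ n ∈ S', |x h n| - p * ∑ n ∈ X, |x h n|)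
        · rw [ind_true hQ]
          have := ind_nonneg (∃ h, u / 2 < ∑ n ∈ X, s * (io S n - io S' n) * |x h n|)
          nlinarith
        · rw [not_lt] at hQ
          have hR : ∃ h, u / 2 < ∑ n ∈ X, s * (io S n - io S' n) * |x h n| := by
            refine ⟨h, ?_⟩
            have e : ∑ n ∈ X, s * (io S n - io S' n) * |x h n| =
                s * (∑ n ∈ S, |x h n| - ∑ n ∈ S', |x h n|) := by
              rw [← sum_io X S (mem_powerset.1 hS), ← sum_io X S' (mem_powerset.1 hS'),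
                ← sum_sub_distrib, mul_sum]
              refine sum_congr rfl fun n _ => ?_
              ring
            rw [e]
            nlinarith
          rw [ind_true hR]
          have := mul_nonneg hw (ind_nonneg (u / 2 < s * (∑ n ∈ S', |x h n| -
            p * ∑ n ∈ X, |x h n|)))
          linarith
      have h5 := sum_le_sum h4
      rw [sum_add_distrib, hone] at h5
      linarith
    have h6 := wt_nonneg h0.le h1 X S
    have h7 := mul_le_mul_of_nonneg_left h3 h6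
    rw [mul_sum] at h7
    calc wt p X S = 2 * (wt p X S * (1 / 2)) := by ring
      _ ≤ _ := by
        refine mul_le_mul_of_nonneg_left (h7.trans (le_of_eq ?_)) (by norm_num)
        refine sum_congr rfl fun S' _ => ?_
        rw [mul_assoc]
  · rw [ind_false hP, mul_zero]
    have : 0 ≤ ∑ S' ∈ X.powerset, wt p X S * wt p X S' *
        ind (∃ h, u / 2 < ∑ n ∈ X, s * (io S n - io S' n) * |x h n|) :=
      sum_nonneg fun S' _ => mul_nonneg (mul_nonneg (wt_nonneg h0.le h1 X S)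
        (wt_nonneg h0.le h1 X S')) (ind_nonneg _)
    linarith

/-- random signs and contraction -/
theorem signs {H : Type*} {p : ℝ} (h0 : 0 ≤ p) (h1 : p ≤ 1) (X : Finset α)
    (x : H → α → ℝ) (v s : ℝ) :
    2 ^ X.card * ∑ q ∈ X.powerset ×ˢ X.powerset, wt p X q.1 * wt p X q.2 *
        ind (∃ h, v < ∑ n ∈ X, s * (io q.1 n - io q.2 n) * |x h n|) ≤
      ∑ q ∈ X.powerset ×ˢ X.powerset, wt p X q.1 * wt p X q.2 *
        ∑ D ∈ X.powerset, ind (∃ h, v < ∑ n ∈ X, sg D n * (s * (io q.1 n - io q.2 n) * x h n)) := by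
  set F : Finset α × Finset α → ℝ := fun q =>
    ind (∃ h, v < ∑ n ∈ X, s * (io q.1 n - io q.2 n) * |x h n|) with hF
  have h2 : 2 ^ X.card * ∑ q ∈ X.powerset ×ˢ X.powerset, wt p X q.1 * wt p X q.2 * F q =
      ∑ D ∈ X.powerset, ∑ q ∈ X.powerset ×ˢ X.powerset, wt p X q.1 * wt p X q.2 * F (sw D q) := by
    rw [sum_congr rfl fun D _ => swap_inv p X D F, sum_const, card_powerset, nsmul_eq_mul]
    push_cast
    ring
  rw [h2, sum_comm]
  refine sum_le_sum fun q _ => ?_
  rw [← mul_sum]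
  refine mul_le_mul_of_nonneg_left ?_ (mul_nonneg (wt_nonneg h0 h1 X q.1) (wt_nonneg h0 h1 X q.2))
  have h3 := contraction (fun n => s * (io q.1 n - io q.2 n)) x v X (fun _ => 0)
  simp only [zero_add] at h3
  refine le_trans (le_of_eq ?_) h3
  refine sum_congr rfl fun D _ => ?_
  refine congrArg ind (propext ?_)
  refine exists_congr fun h => ?_
  have e : ∑ n ∈ X, s * (io (sw D q).1 n - io (sw D q).2 n) * |x h n| =
      ∑ n ∈ X, sg D n * (s * (io q.1 n - io q.2 n) * |x h n|) := by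
    refine sum_congr rfl fun n _ => ?_
    rw [sw_diff]
    ring
  rw [e]

variable {ι : Type*} [Fintype ι]

/-- the absolutely convex hull -/
noncomputable def cv (γ : ι → α → ℝ) (c : {c : ι → ℝ // ∑ j, |c j| ≤ 1}) (n : α) : ℝ :=
  ∑ j, c.1 j * γ j n

/-- linear functionals on the hull -/
theorem hull (γ : ι → α → ℝ) (X : Finset α) (z : α → ℝ) (v : ℝ) (hv : 0 ≤ v) :
    ind (∃ c : {c : ι → ℝ // ∑ j, |c j| ≤ 1}, v < ∑ n ∈ X, z n * cv γ c n) ≤
      ∑ j, (ind (v < ∑ n ∈ X, z n * γ j n) + ind (v < -∑ n ∈ X, z n * γ j n)) := by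
  by_cases hP : ∃ c : {c : ι → ℝ // ∑ j, |c j| ≤ 1}, v < ∑ n ∈ X, z n * cv γ c n
  · obtain ⟨c, hc⟩ := hP
    have e : ∑ n ∈ X, z n * cv γ c n = ∑ j, c.1 j * ∑ n ∈ X, z n * γ j n := by
      unfold cv
      simp_rw [mul_sum]
      rw [sum_comm]
      refine sum_congr rfl fun j _ => sum_congr rfl fun n _ => ?_
      ring
    rw [e] at hc
    obtain ⟨j, hj⟩ : ∃ j, v < |∑ n ∈ X, z n * γ j n| := by
      by_contra hcon
      push Not at hcon
      have h1 : ∑ j, c.1 j * ∑ n ∈ X, z n * γ j n ≤ ∑ j, |c.1 j| * v := by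
        refine sum_le_sum fun j _ => ?_
        refine (le_abs_self _).trans ?_
        rw [abs_mul]
        exact mul_le_mul_of_nonneg_left (hcon j) (abs_nonneg _)
      rw [← sum_mul] at h1
      have h2 := mul_le_mul_of_nonneg_right c.2 hv
      linarith
    rw [ind_true ⟨c, by rw [e]; exact hc⟩]
    have hnn : ∀ j, 0 ≤ ind (v < ∑ n ∈ X, z n * γ j n) + ind (v < -∑ n ∈ X, z n * γ j n) :=
      fun j => add_nonneg (ind_nonneg _) (ind_nonneg _)
    refine le_trans ?_ (single_le_sum (fun j _ => hnn j) (mem_univ j))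
    rcases lt_abs.1 hj with h | h
    · rw [ind_true h]
      have := ind_nonneg (v < -∑ n ∈ X, z n * γ j n)
      linarith
    · rw [ind_true h]
      have := ind_nonneg (v < ∑ n ∈ X, z n * γ j n)
      linarith
  · rw [ind_false hP]
    exact sum_nonneg fun j _ => add_nonneg (ind_nonneg _) (ind_nonneg _)

/-- one signed sum -/
theorem one_sum (X : Finset α) (z : α → ℝ) (v l : ℝ) (hl : 0 ≤ l) (s : ℝ) (hs : s = 1 ∨ s = -1) :
    ∑ D ∈ X.powerset, ind (v < s * ∑ n ∈ X, sg D n * z n) ≤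
      Real.exp (-(l * v)) * (2 ^ X.card * Real.exp (l ^ 2 / 2 * ∑ n ∈ X, z n ^ 2)) := by
  have h1 := hoeff z (s * l) X
  have hs2 : s ^ 2 = 1 := by rcases hs with h | h <;> rw [h] <;> norm_num
  rw [mul_pow, hs2, one_mul] at h1
  refine le_trans ?_ (mul_le_mul_of_nonneg_left h1 (Real.exp_pos _).le)
  rw [mul_sum]
  refine sum_le_sum fun D _ => ?_
  rw [← Real.exp_add]
  by_cases hP : v < s * ∑ n ∈ X, sg D n * z n
  · rw [ind_true hP]
    refine Real.one_le_exp ?_
    have := mul_le_mul_of_nonneg_left hP.le hl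
    linarith
  · rw [ind_false hP]
    positivity

/-- **Uniform deviations.** -/
theorem dev {p : ℝ} (h0 : 0 < p) (h1 : p ≤ 1) (X : Finset α) (hX : X.Nonempty)
    (γ : ι → α → ℝ) (hγ : ∀ j, ∀ n ∈ X, |γ j n| ≤ 1) (u : ℝ) (hu0 : 0 ≤ u)
    (hu : 12 * (p * X.card) ≤ u ^ 2) (hu' : u ≤ 4 * (p * X.card)) (s : ℝ) (hs : s = 1 ∨ s = -1) :
    ∑ S ∈ X.powerset, wt p X S *
        ind (∃ c, u < s * (∑ n ∈ S, |cv γ c n| - p * ∑ n ∈ X, |cv γ c n|)) ≤
      4 * Fintype.card ι * Real.exp (-(u ^ 2 / (32 * (p * X.card)))) := by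
  have hcv : ∀ c, ∀ n ∈ X, |cv γ c n| ≤ 1 := by
    intro c n hn
    unfold cv
    refine (abs_sum_le_sum_abs _ _).trans (le_trans ?_ c.2)
    refine sum_le_sum fun j _ => ?_
    rw [abs_mul]
    exact mul_le_of_le_one_right (abs_nonneg _) (hγ j n hn)
  refine (symm h0 h1 X hX (cv γ) hcv u hu0 hu hu' s hs).trans ?_
  have hc : (0 : ℝ) < X.card := by exact_mod_cast card_pos.2 hX
  set m : ℝ := p * X.card with hm
  have hm0 : 0 < m := by positivity
  set l : ℝ := u / (8 * m) with hl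
  have hl0 : 0 ≤ l := by positivity
  have hl1 : l ≤ 1 := by rw [hl, div_le_one (by positivity)]; linarith
  have hB := signs h0.le h1 X (cv γ) (u / 2) s
  -- the inner sums
  have hin : ∀ q ∈ X.powerset ×ˢ X.powerset,
      ∑ D ∈ X.powerset, ind (∃ c, u / 2 < ∑ n ∈ X, sg D n * (s * (io q.1 n - io q.2 n) * cv γ c n)) ≤
      2 ^ X.card * (2 * Fintype.card ι * Real.exp (-(l * (u / 2))) *
        (Real.exp (l ^ 2 / 2 * (q.1.card : ℝ)) * Real.exp (l ^ 2 / 2 * (q.2.card : ℝ)))) := by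
    intro q hq
    rw [mem_product, mem_powerset, mem_powerset] at hq
    have h2 : ∀ D ∈ X.powerset,
        ind (∃ c, u / 2 < ∑ n ∈ X, sg D n * (s * (io q.1 n - io q.2 n) * cv γ c n)) ≤
        ∑ j, (ind (u / 2 < 1 * ∑ n ∈ X, sg D n * (s * (io q.1 n - io q.2 n) * γ j n)) +
          ind (u / 2 < (-1) * ∑ n ∈ X, sg D n * (s * (io q.1 n - io q.2 n) * γ j n))) := by
      intro D _
      have h3 := hull γ X (fun n => sg D n * (s * (io q.1 n - io q.2 n))) (u / 2) (by linarith)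
      refine le_trans (le_of_eq ?_) (h3.trans (le_of_eq ?_))
      · congr 1
        simp only [eq_iff_iff]
        refine exists_congr fun c => ?_
        have e : ∑ n ∈ X, sg D n * (s * (io q.1 n - io q.2 n) * cv γ c n) =
            ∑ n ∈ X, sg D n * (s * (io q.1 n - io q.2 n)) * cv γ c n :=
          sum_congr rfl fun n _ => by ring
        rw [e]
      · refine sum_congr rfl fun j _ => ?_
        have e : ∑ n ∈ X, sg D n * (s * (io q.1 n - io q.2 n)) * γ j n =
            ∑ n ∈ X, sg D n * (s * (io q.1 n - io q.2 n) * γ j n) :=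
          sum_congr rfl fun n _ => by ring
        rw [e, one_mul, neg_one_mul]
    refine (sum_le_sum h2).trans ?_
    rw [sum_comm]
    have hz : ∀ j, ∑ n ∈ X, (s * (io q.1 n - io q.2 n) * γ j n) ^ 2 ≤
        (q.1.card : ℝ) + q.2.card := by
      intro j
      rw [← io_card X q.1 hq.1, ← io_card X q.2 hq.2, ← sum_add_distrib]
      refine sum_le_sum fun n hn => ?_
      have hs2 : s ^ 2 = 1 := by rcases hs with h | h <;> rw [h] <;> norm_num
      rw [mul_pow, mul_pow, hs2, one_mul]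
      have h4 : γ j n ^ 2 ≤ 1 := by
        rw [← sq_abs]
        exact pow_le_one₀ (abs_nonneg _) (hγ j n hn)
      have h5 : (io q.1 n - io q.2 n) ^ 2 ≤ io q.1 n + io q.2 n := by
        unfold io
        split_ifs <;> norm_num
      calc (io q.1 n - io q.2 n) ^ 2 * γ j n ^ 2 ≤ (io q.1 n - io q.2 n) ^ 2 * 1 :=
            mul_le_mul_of_nonneg_left h4 (sq_nonneg _)
        _ ≤ _ := by rw [mul_one]; exact h5
    have h6 : ∀ j : ι, ∑ D ∈ X.powerset,
        (ind (u / 2 < 1 * ∑ n ∈ X, sg D n * (s * (io q.1 n - io q.2 n) * γ j n)) +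
          ind (u / 2 < (-1) * ∑ n ∈ X, sg D n * (s * (io q.1 n - io q.2 n) * γ j n))) ≤
        2 * (Real.exp (-(l * (u / 2))) * (2 ^ X.card *
          (Real.exp (l ^ 2 / 2 * (q.1.card : ℝ)) * Real.exp (l ^ 2 / 2 * (q.2.card : ℝ))))) := by
      intro j
      rw [sum_add_distrib]
      have a1 := one_sum X (fun n => s * (io q.1 n - io q.2 n) * γ j n) (u / 2) l hl0 1 (Or.inl rfl)
      have a2 := one_sum X (fun n => s * (io q.1 n - io q.2 n) * γ j n) (u / 2) l hl0 (-1)
        (Or.inr rfl)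
      have a3 : Real.exp (-(l * (u / 2))) * (2 ^ X.card *
          Real.exp (l ^ 2 / 2 * ∑ n ∈ X, (s * (io q.1 n - io q.2 n) * γ j n) ^ 2)) ≤
          Real.exp (-(l * (u / 2))) * (2 ^ X.card *
          (Real.exp (l ^ 2 / 2 * (q.1.card : ℝ)) * Real.exp (l ^ 2 / 2 * (q.2.card : ℝ)))) := by
        rw [← Real.exp_add]
        refine mul_le_mul_of_nonneg_left (mul_le_mul_of_nonneg_left (Real.exp_le_exp.2 ?_)
          (by positivity)) (Real.exp_pos _).le
        rw [← mul_add]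
        exact mul_le_mul_of_nonneg_left (hz j) (by positivity)
      linarith
    refine (sum_le_sum fun j _ => h6 j).trans (le_of_eq ?_)
    rw [sum_const, card_univ, nsmul_eq_mul]
    ring
  have hC : 2 ^ X.card * ∑ q ∈ X.powerset ×ˢ X.powerset, wt p X q.1 * wt p X q.2 *
      ind (∃ c, u / 2 < ∑ n ∈ X, s * (io q.1 n - io q.2 n) * |cv γ c n|) ≤
      2 ^ X.card * ((2 * Fintype.card ι * Real.exp (-(l * (u / 2)))) *
        Real.exp (2 * l ^ 2 * m)) := by
    refine hB.trans ?_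
    have h7 : ∑ q ∈ X.powerset ×ˢ X.powerset, wt p X q.1 * wt p X q.2 *
        ∑ D ∈ X.powerset, ind (∃ c, u / 2 < ∑ n ∈ X,
          sg D n * (s * (io q.1 n - io q.2 n) * cv γ c n)) ≤
        ∑ q ∈ X.powerset ×ˢ X.powerset, (2 ^ X.card * (2 * Fintype.card ι *
          Real.exp (-(l * (u / 2))))) * ((wt p X q.1 * Real.exp (l ^ 2 / 2 * (q.1.card : ℝ))) *
          (wt p X q.2 * Real.exp (l ^ 2 / 2 * (q.2.card : ℝ)))) := by
      refine sum_le_sum fun q hq => ?_
      refine (mul_le_mul_of_nonneg_left (hin q hq) (mul_nonneg (wt_nonneg h0.le h1 X q.1)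
        (wt_nonneg h0.le h1 X q.2))).trans (le_of_eq ?_)
      ring
    refine h7.trans ?_
    rw [← mul_sum, sum_product]
    simp_rw [← mul_sum, ← sum_mul]
    have h8 : ∑ S ∈ X.powerset, wt p X S * Real.exp (l ^ 2 / 2 * (S.card : ℝ)) ≤
        Real.exp (l ^ 2 * m) := by
      have h9 := expm h0.le h1 X (fun _ => 1) (fun n _ => ⟨zero_le_one, le_rfl⟩) (l ^ 2 / 2)
        (by rw [abs_of_nonneg (by positivity)]; nlinarith)
      simp only [sum_const, nsmul_eq_mul, mul_one] at h9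
      refine h9.trans (Real.exp_le_exp.2 ?_)
      rw [hm]
      have h10 : l ^ 2 ≤ 1 := pow_le_one₀ hl0 hl1
      have h11 : p * (l ^ 2 / 2) ^ 2 * (X.card : ℝ) ≤ p * (l ^ 2 / 2) * X.card := by
        refine mul_le_mul_of_nonneg_right (mul_le_mul_of_nonneg_left ?_ h0.le) hc.le
        nlinarith [sq_nonneg l]
      nlinarith
    have h12 : 0 ≤ ∑ S ∈ X.powerset, wt p X S * Real.exp (l ^ 2 / 2 * (S.card : ℝ)) :=
      sum_nonneg fun S _ => mul_nonneg (wt_nonneg h0.le h1 X S) (Real.exp_pos _).le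
    rw [show 2 * l ^ 2 * m = l ^ 2 * m + l ^ 2 * m by ring, Real.exp_add]
    rw [mul_assoc (2 ^ X.card : ℝ)]
    refine mul_le_mul_of_nonneg_left (mul_le_mul_of_nonneg_left
      (mul_le_mul h8 h8 h12 (Real.exp_pos _).le) (by positivity)) (by positivity)
  have hD := le_of_mul_le_mul_left hC (by positivity : (0 : ℝ) < 2 ^ X.card)
  calc 2 * ∑ q ∈ X.powerset ×ˢ X.powerset, wt p X q.1 * wt p X q.2 *
      ind (∃ c, u / 2 < ∑ n ∈ X, s * (io q.1 n - io q.2 n) * |cv γ c n|) ≤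
      2 * ((2 * Fintype.card ι * Real.exp (-(l * (u / 2)))) * Real.exp (2 * l ^ 2 * m)) :=
        mul_le_mul_of_nonneg_left hD (by norm_num)
    _ = 4 * Fintype.card ι * (Real.exp (-(l * (u / 2))) * Real.exp (2 * l ^ 2 * m)) := by ring
    _ = _ := by
        rw [← Real.exp_add]
        congr 2
        rw [hl]
        field_simp
        ring

end Pool.Agent.P8H75.SU
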