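import Pool.Agent.P8H75.SU.Dual

set_option autoImplicit false
set_option linter.unusedSectionVars false

/-!
# Montgomery's conjecture and random supports
-/

namespace Pool.Agent.P8H75.SU

open Finset MeasureTheory
open Pool.Agent.P8H75.DS (D lv lv_mono lv_nonneg lv_card V_sq small T_bound)

/-- Montgomery's bound above the exponent `(1 + δ) / 2` -/
def Ga (A δ : ℝ) : Prop := ∀ σ : ℝ, (1 + δ) / 2 < σ → ∀ ε : ℝ, 0 < ε → ∃ C : ℝ, ∀ N T : ℕ, 2 ≤ N →
  N ≤ T → (T : ℝ) ≤ (N : ℝ) ^ A → ∀ b : ℕ → ℂ, (∀ n, ‖b n‖ ≤ 1) →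
    lv N b ((N : ℝ) ^ σ) (range (T + 1)) ≤ C * (N : ℝ) ^ (2 - 2 * σ + ε)

/-- the size of the supports -/
noncomputable def ks (δ : ℝ) (N : ℕ) : ℕ := ⌈(N : ℝ) ^ (1 - δ)⌉₊

/-- the full bound for coefficients supported on `I` -/
def OkS (N T : ℕ) (ε C : ℝ) (I : Finset ℕ) : Prop := ∀ b : ℕ → ℂ, (∀ n, ‖b n‖ ≤ 1) →
  (∀ n, n ∉ I → b n = 0) → ∀ V : ℝ, (N : ℝ) ^ ε * Real.sqrt I.card ≤ V →
    lv N b V (range (T + 1)) ≤ C * (N : ℝ) ^ ε * (I.card : ℝ) ^ 2 / V ^ 2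

open Classical in
def Gb (A δ : ℝ) : Prop := ∀ B ε : ℝ, 0 < ε → ∃ C : ℝ, ∀ N T : ℕ, 2 ≤ N →
  N ≤ T → (T : ℝ) ≤ (N : ℝ) ^ A →
    (((powersetCard (ks δ N) (Icc N (2 * N))).filter (fun I => ¬ OkS N T ε C I)).card : ℝ) ≤
      (N : ℝ) ^ (-B) * (((N + 1).choose (ks δ N) : ℕ) : ℝ)

open Classical in
def Gc (A δ : ℝ) : Prop := ∀ ε : ℝ, 0 < ε → ∃ B C : ℝ, ∀ N T : ℕ, 2 ≤ N →
  N ≤ T → (T : ℝ) ≤ (N : ℝ) ^ A →
    (N : ℝ) ^ (-B) * (((N + 1).choose (ks δ N) : ℕ) : ℝ) ≤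
      (((powersetCard (ks δ N) (Icc N (2 * N))).filter (fun I => OkS N T ε C I)).card : ℝ)

theorem ks_facts (δ : ℝ) (hδ : 0 ≤ δ) (hδ1 : δ ≤ 1) (N : ℕ) (hN : 1 ≤ N) :
    1 ≤ ks δ N ∧ ks δ N ≤ N + 1 ∧ (N : ℝ) ^ (1 - δ) ≤ ks δ N ∧
      (ks δ N : ℝ) ≤ 2 * (N : ℝ) ^ (1 - δ) := by
  have hNr : (1 : ℝ) ≤ N := by exact_mod_cast hN
  have h1 : 1 ≤ (N : ℝ) ^ (1 - δ) := Real.one_le_rpow hNr (by linarith)
  have h2 : (N : ℝ) ^ (1 - δ) ≤ ks δ N := Nat.le_ceil _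
  refine ⟨?_, ?_, h2, ?_⟩
  · have : (1 : ℝ) ≤ (ks δ N : ℕ) := h1.trans h2
    exact_mod_cast this
  · unfold ks
    rw [Nat.ceil_le]
    have h3 : (N : ℝ) ^ (1 - δ) ≤ (N : ℝ) ^ (1 : ℝ) :=
      Real.rpow_le_rpow_of_exponent_le hNr (by linarith)
    rw [Real.rpow_one] at h3
    push_cast
    linarith
  · have h3 : ((ks δ N : ℕ) : ℝ) < (N : ℝ) ^ (1 - δ) + 1 := Nat.ceil_lt_add_one (by positivity)
    linarith

/-- uniform version over the thresholds -/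
theorem Ga_unif (A δ : ℝ) (h : Ga A δ) (σ : ℝ) (hσ : (1 + δ) / 2 < σ) (ε : ℝ) (hε : 0 < ε) :
    ∃ C : ℝ, 0 ≤ C ∧ ∀ N T : ℕ, 2 ≤ N → N ≤ T → (T : ℝ) ≤ (N : ℝ) ^ A →
      ∀ b : ℕ → ℂ, (∀ n, ‖b n‖ ≤ 1) → ∀ V : ℝ, (N : ℝ) ^ σ ≤ V →
        lv N b V (range (T + 1)) ≤ C * (N : ℝ) ^ (2 + ε) / V ^ 2 := by
  -- by steps of length `ε / 4`
  have hm : ∀ m : ℕ, ∃ C : ℝ, 0 ≤ C ∧ ∀ N T : ℕ, 2 ≤ N → N ≤ T → (T : ℝ) ≤ (N : ℝ) ^ A →
      ∀ b : ℕ → ℂ, (∀ n, ‖b n‖ ≤ 1) → ∀ V : ℝ, (N : ℝ) ^ σ ≤ V →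
        V ≤ (N : ℝ) ^ (σ + m * (ε / 4)) →
        lv N b V (range (T + 1)) ≤ C * (N : ℝ) ^ (2 + ε) / V ^ 2 := by
    intro m
    have hstep : ∀ m : ℕ, ∃ C : ℝ, 0 ≤ C ∧ ∀ N T : ℕ, 2 ≤ N → N ≤ T → (T : ℝ) ≤ (N : ℝ) ^ A →
        ∀ b : ℕ → ℂ, (∀ n, ‖b n‖ ≤ 1) → ∀ V : ℝ, (N : ℝ) ^ (σ + m * (ε / 4)) ≤ V →
          V ≤ (N : ℝ) ^ (σ + (m + 1) * (ε / 4)) →
          lv N b V (range (T + 1)) ≤ C * (N : ℝ) ^ (2 + ε) / V ^ 2 := by
      intro m
      have hm0 : (0 : ℝ) ≤ m := Nat.cast_nonneg m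
      obtain ⟨C, hC⟩ := h (σ + m * (ε / 4)) (by nlinarith) (ε / 2) (by linarith)
      refine ⟨max C 0, le_max_right _ _, fun N T hN hNT hT b hb V h1 h2 => ?_⟩
      have hNr : (2 : ℝ) ≤ N := by exact_mod_cast hN
      have hN0 : (0 : ℝ) < N := by linarith
      have hV0 : 0 < V := lt_of_lt_of_le (Real.rpow_pos_of_pos hN0 _) h1
      refine (lv_mono N b _ _ h1 _).trans ((hC N T hN hNT hT b hb).trans ?_)
      rw [le_div_iff₀ (by positivity)]
      have h3 : V ^ 2 ≤ (N : ℝ) ^ (2 * (σ + (m + 1) * (ε / 4))) := by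
        refine (pow_le_pow_left₀ hV0.le h2 2).trans (le_of_eq ?_)
        rw [← Real.rpow_natCast, ← Real.rpow_mul hN0.le]
        congr 1
        push_cast
        ring
      calc C * (N : ℝ) ^ (2 - 2 * (σ + m * (ε / 4)) + ε / 2) * V ^ 2 ≤
            max C 0 * (N : ℝ) ^ (2 - 2 * (σ + m * (ε / 4)) + ε / 2) *
              (N : ℝ) ^ (2 * (σ + (m + 1) * (ε / 4))) :=
            mul_le_mul (mul_le_mul_of_nonneg_right (le_max_left _ _) (by positivity)) h3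
              (by positivity) (by positivity)
        _ = max C 0 * (N : ℝ) ^ (2 + ε) := by
            rw [mul_assoc, ← Real.rpow_add hN0]
            congr 2
            ring
    induction m with
    | zero =>
      obtain ⟨C, hC0, hC⟩ := hstep 0
      refine ⟨C, hC0, fun N T hN hNT hT b hb V h1 h2 => hC N T hN hNT hT b hb V ?_ ?_⟩
      · simpa using h1
      · refine h2.trans (Real.rpow_le_rpow_of_exponent_le (by
          have : (2 : ℝ) ≤ N := by exact_mod_cast hN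
          linarith) ?_)
        push_cast
        linarith
    | succ m ih =>
      obtain ⟨C₁, hC₁0, hC₁⟩ := ih
      obtain ⟨C₂, hC₂0, hC₂⟩ := hstep m
      refine ⟨C₁ + C₂, by positivity, fun N T hN hNT hT b hb V h1 h2 => ?_⟩
      have hNr : (2 : ℝ) ≤ N := by exact_mod_cast hN
      have hN0 : (0 : ℝ) < N := by linarith
      have hV0 : 0 < V := lt_of_lt_of_le (Real.rpow_pos_of_pos hN0 _) h1
      have hp1 : 0 ≤ C₁ * (N : ℝ) ^ (2 + ε) / V ^ 2 := by positivity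
      have hp2 : 0 ≤ C₂ * (N : ℝ) ^ (2 + ε) / V ^ 2 := by positivity
      have e : (C₁ + C₂) * (N : ℝ) ^ (2 + ε) / V ^ 2 =
          C₁ * (N : ℝ) ^ (2 + ε) / V ^ 2 + C₂ * (N : ℝ) ^ (2 + ε) / V ^ 2 := by ring
      rw [e]
      rcases le_total V ((N : ℝ) ^ (σ + m * (ε / 4))) with h3 | h3
      · have := hC₁ N T hN hNT hT b hb V h1 h3
        linarith
      · have := hC₂ N T hN hNT hT b hb V h3 (by
          refine h2.trans (le_of_eq ?_)
          push_cast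
          rfl)
        linarith
  obtain ⟨m, hm1⟩ := exists_nat_ge ((2 - σ) / (ε / 4))
  rw [div_le_iff₀ (by linarith)] at hm1
  obtain ⟨C, hC0, hC⟩ := hm m
  refine ⟨C, hC0, fun N T hN hNT hT b hb V h1 => ?_⟩
  have hNr : (2 : ℝ) ≤ N := by exact_mod_cast hN
  have hN0 : (0 : ℝ) < N := by linarith
  rcases le_total V ((N : ℝ) ^ (σ + m * (ε / 4))) with h3 | h3
  · exact hC N T hN hNT hT b hb V h1 h3
  · -- no values above `N ^ 2`
    have hV0 : 0 < V := lt_of_lt_of_le (Real.rpow_pos_of_pos hN0 _) h1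
    have h4 : (N : ℝ) ^ (2 : ℝ) ≤ V :=
      (Real.rpow_le_rpow_of_exponent_le (by linarith) (by linarith)).trans h3
    set b' : ℕ → ℂ := fun n => if n ∈ Icc N (2 * N) then b n else 0 with hb'
    have e : ∀ t : ℝ, D N b t = D N b' t := by
      intro t
      unfold D
      refine sum_congr rfl fun n hn => ?_
      rw [hb']
      simp only [if_pos hn]
    have h5 : lv N b V (range (T + 1)) = lv N b' V (range (T + 1)) := by
      unfold lv
      simp only [e]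
    have h8 : (((Icc N (2 * N)).card : ℕ) : ℝ) ≤ V := by
      rw [Nat.card_Icc]
      have h6 : (N : ℝ) ^ (2 : ℝ) = (N : ℝ) ^ (2 : ℕ) := by
        rw [← Real.rpow_natCast]
        norm_num
      rw [h6] at h4
      have h7 : ((2 * N + 1 - N : ℕ) : ℝ) = (N : ℝ) + 1 := by
        rw [show 2 * N + 1 - N = N + 1 by omega]
        push_cast
        ring
      rw [h7]
      nlinarith
    have h9 := lv_zero N b' (fun n => by
      rw [hb']
      dsimp only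
      split_ifs
      · exact hb n
      · simp) (Icc N (2 * N)) subset_rfl (fun n hn => by
      rw [hb']
      simp only [if_neg hn]) V h8 (range (T + 1))
    rw [h5, h9]
    positivity

/-- the constant threshold -/
theorem N_small' (N : ℕ) (κ η : ℝ) (hκ : 0 < κ) (hη : 0 < η) (h4 : ¬ κ ≤ (N : ℝ) ^ η) :
    (N : ℝ) ≤ κ ^ (1 / η) := by
  rw [not_le] at h4
  have h1 := Real.rpow_le_rpow (by positivity) h4.le (show 0 ≤ 1 / η by positivity)
  rw [← Real.rpow_mul (Nat.cast_nonneg N), mul_one_div_cancel hη.ne', Real.rpow_one] at h1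
  exact h1

theorem sqrt_log (ε : ℝ) (hε : 0 < ε) (x : ℝ) (hx : 1 ≤ x) :
    Real.sqrt (Real.log x) ≤ x ^ (ε / 2) / Real.sqrt ε := by
  have h1 := Real.log_le_rpow_div (show (0 : ℝ) ≤ x by linarith) hε
  have h2 := Real.sqrt_le_sqrt h1
  refine h2.trans (le_of_eq ?_)
  rw [Real.sqrt_div (by positivity)]
  congr 1
  rw [Real.sqrt_eq_rpow, ← Real.rpow_mul (by linarith)]
  congr 1
  ring

theorem gb_of_ga (A δ : ℝ) (hδ : 0 ≤ δ) (hδ1 : δ ≤ 1) (h : Ga A δ) : Gb A δ := by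
  classical
  intro B ε hε
  obtain ⟨C₂, hC₂0, hC₂⟩ := Ga_unif A δ h ((1 + δ) / 2 + ε / 2) (by linarith) ε hε
  obtain ⟨C₁, hC₁1, hC₁⟩ := samp (max B 0) (max A 0 + 1) (le_max_right _ _)
    (by have := le_max_right A 0; linarith)
  set κ : ℝ := max 8 (2 * C₁ / Real.sqrt ε) with hκ
  have hκ8 : 8 ≤ κ := le_max_left _ _
  have hκ0 : 0 < κ := by linarith
  set N₀ : ℝ := κ ^ (1 / (ε / 4)) with hN₀
  refine ⟨32 * C₂ + max (N₀ ^ (max A 0 + 1)) 0, ?_⟩
  intro N T hN hNT hT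
  have hNr : (2 : ℝ) ≤ N := by exact_mod_cast hN
  have hN0 : (0 : ℝ) < N := by linarith
  have hTb := T_bound A N T hN hT
  obtain ⟨k1, k2, k3, k4⟩ := ks_facts δ hδ hδ1 N (by omega)
  set k := ks δ N with hk
  have hk0 : (0 : ℝ) < k := by exact_mod_cast k1
  have hcount := hC₁ N (T + 1) hN hTb k k1 k2
  have hB : (N : ℝ) ^ (-(max B 0)) ≤ (N : ℝ) ^ (-B) :=
    Real.rpow_le_rpow_of_exponent_le (by linarith) (neg_le_neg (le_max_left _ _))
  refine le_trans ?_ (hcount.trans (mul_le_mul_of_nonneg_right hB (Nat.cast_nonneg _)))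
  refine Nat.cast_le.2 (card_le_card fun I hI => ?_)
  rw [mem_filter] at hI ⊢
  refine ⟨hI.1, fun hgood => hI.2 fun b hb hb0 V hV => ?_⟩
  obtain ⟨hIX, hIk⟩ := mem_powersetCard.1 hI.1
  rw [hIk] at hV ⊢
  have hV0 : 0 < V := lt_of_lt_of_le (by positivity) hV
  have hone : 1 ≤ (N : ℝ) ^ ε := Real.one_le_rpow (by linarith) hε.le
  have hsk : 0 < Real.sqrt k := Real.sqrt_pos.2 hk0
  by_cases h4 : κ ≤ (N : ℝ) ^ (ε / 4)
  · set W := (range (T + 1)).filter (fun t : ℕ => V < ‖D N b (t : ℕ)‖) with hW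
    have hWs : W ⊆ range (T + 1) := filter_subset _ _
    have hWc : lv N b V (range (T + 1)) = W.card := by
      unfold lv
      rw [hW]
    rw [hWc]
    set w : ℝ := (W.card : ℝ) with hw
    have hw0 : 0 ≤ w := Nat.cast_nonneg _
    obtain ⟨a, ha0, ha1, ha2⟩ := dualUp N (T + 1) I hIX b (fun n _ => hb n)
      (fun n _ hn => hb0 n hn) V W hWs (fun t ht => (mem_filter.1 ht).2)
    have hsum : ∑ t ∈ range (T + 1), ‖a t‖ ≤ w := by
      rw [← sum_subset hWs fun t _ ht => by rw [ha0 t ht, norm_zero]]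
      refine (sum_le_sum fun t _ => ha1 t).trans (le_of_eq ?_)
      simp [hw]
    have h5 := hgood a
    have h6 := (abs_le.1 h5).2
    -- the error term
    have h7 : C₁ * Real.sqrt (k * Real.log N) ≤ V / 2 := by
      rw [Real.sqrt_mul hk0.le]
      have h8 := sqrt_log ε hε N (by linarith)
      have h9 : C₁ * (Real.sqrt k * Real.sqrt (Real.log N)) ≤
          Real.sqrt k * (C₁ / Real.sqrt ε * (N : ℝ) ^ (ε / 2)) := by
        calc C₁ * (Real.sqrt k * Real.sqrt (Real.log N)) =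
              Real.sqrt k * (C₁ * Real.sqrt (Real.log N)) := by ring
          _ ≤ Real.sqrt k * (C₁ * ((N : ℝ) ^ (ε / 2) / Real.sqrt ε)) :=
              mul_le_mul_of_nonneg_left (mul_le_mul_of_nonneg_left h8 (by linarith)) hsk.le
          _ = _ := by ring
      refine h9.trans ?_
      have h10 : C₁ / Real.sqrt ε ≤ (N : ℝ) ^ (ε / 4) / 2 := by
        have := le_max_right 8 (2 * C₁ / Real.sqrt ε)
        rw [← hκ] at this
        have e : 2 * C₁ / Real.sqrt ε = 2 * (C₁ / Real.sqrt ε) := by ring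
        rw [e] at this
        linarith
      have h11 : C₁ / Real.sqrt ε * (N : ℝ) ^ (ε / 2) ≤ (N : ℝ) ^ ε / 2 := by
        calc C₁ / Real.sqrt ε * (N : ℝ) ^ (ε / 2) ≤ (N : ℝ) ^ (ε / 4) / 2 * (N : ℝ) ^ (ε / 2) :=
              mul_le_mul_of_nonneg_right h10 (by positivity)
          _ = (N : ℝ) ^ (ε / 4 + ε / 2) / 2 := by rw [Real.rpow_add hN0]; ring
          _ ≤ _ := by
              have := Real.rpow_le_rpow_of_exponent_le (show (1 : ℝ) ≤ N by linarith)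
                (show ε / 4 + ε / 2 ≤ ε by linarith)
              linarith
      calc Real.sqrt k * (C₁ / Real.sqrt ε * (N : ℝ) ^ (ε / 2)) ≤ Real.sqrt k * ((N : ℝ) ^ ε / 2) :=
            mul_le_mul_of_nonneg_left h11 hsk.le
        _ = (N : ℝ) ^ ε * Real.sqrt k / 2 := by ring
        _ ≤ V / 2 := by linarith
    have h8 : C₁ * Real.sqrt (k * Real.log N) * ∑ t ∈ range (T + 1), ‖a t‖ ≤ V / 2 * w := by
      refine mul_le_mul h7 hsum (sum_nonneg fun t _ => norm_nonneg _) (by linarith)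
    obtain ⟨b', hb'1, hb'0, hb'2⟩ := dualDown N (T + 1) (Icc N (2 * N)) subset_rfl a ha1 W hWs ha0
    set V₀ : ℝ := V * ((N + 1 : ℕ) : ℝ) / (4 * k) with hV₀
    have hN1 : (0 : ℝ) < ((N + 1 : ℕ) : ℝ) := by positivity
    have hV₀0 : 0 < V₀ := by positivity
    have hlow : (N : ℝ) ^ ((1 + δ) / 2 + ε / 2) ≤ V₀ := by
      have e1 : Real.sqrt k ≤ 2 * (N : ℝ) ^ ((1 - δ) / 2) := by
        rw [Real.sqrt_le_left (by positivity)]
        refine k4.trans ?_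
        rw [mul_pow, ← Real.rpow_natCast ((N : ℝ) ^ ((1 - δ) / 2)), ← Real.rpow_mul hN0.le]
        rw [show (1 - δ) / 2 * ((2 : ℕ) : ℝ) = 1 - δ by push_cast; ring]
        have := Real.rpow_nonneg hN0.le (1 - δ)
        linarith
      have e2 : (8 : ℝ) ≤ (N : ℝ) ^ (ε / 2) := by
        refine hκ8.trans (h4.trans (Real.rpow_le_rpow_of_exponent_le (by linarith) (by linarith)))
      have e3 : (k : ℝ) = Real.sqrt k * Real.sqrt k := (Real.mul_self_sqrt hk0.le).symm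
      rw [hV₀, le_div_iff₀ (by positivity)]
      have e4 : (N : ℝ) ^ ((1 + δ) / 2 + ε / 2) * (4 * (k : ℝ)) ≤
          (N : ℝ) ^ ε * Real.sqrt k * N := by
        calc (N : ℝ) ^ ((1 + δ) / 2 + ε / 2) * (4 * (k : ℝ)) =
              (N : ℝ) ^ ((1 + δ) / 2 + ε / 2) * (4 * Real.sqrt k) * Real.sqrt k := by
              rw [e3]; simp only [Real.sqrt_mul_self hsk.le]; ring
          _ ≤ (N : ℝ) ^ ((1 + δ) / 2 + ε / 2) * (4 * Real.sqrt k) * (2 * (N : ℝ) ^ ((1 - δ) / 2)) :=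
              mul_le_mul_of_nonneg_left e1 (by positivity)
          _ = 8 * ((N : ℝ) ^ ((1 + δ) / 2 + ε / 2) * (N : ℝ) ^ ((1 - δ) / 2)) * Real.sqrt k := by
              ring
          _ = 8 * (N : ℝ) ^ (1 + ε / 2) * Real.sqrt k := by
              rw [← Real.rpow_add hN0]
              congr 3
              ring
          _ ≤ (N : ℝ) ^ (ε / 2) * (N : ℝ) ^ (1 + ε / 2) * Real.sqrt k :=
              mul_le_mul_of_nonneg_right (mul_le_mul_of_nonneg_right e2 (by positivity)) hsk.le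
          _ = (N : ℝ) ^ ε * Real.sqrt k * N := by
              rw [← Real.rpow_add hN0, show ε / 2 + (1 + ε / 2) = ε + 1 by ring,
                Real.rpow_add_one hN0.ne']
              ring
      refine e4.trans ?_
      calc (N : ℝ) ^ ε * Real.sqrt k * N ≤ V * N := mul_le_mul_of_nonneg_right hV hN0.le
        _ ≤ V * ((N + 1 : ℕ) : ℝ) := by
            refine mul_le_mul_of_nonneg_left ?_ hV0.le
            push_cast
            linarith
    have hlay := layer (T + 1) W hWs (fun t => ‖D N b' (t : ℕ)‖) V₀ (C₂ * (N : ℝ) ^ (2 + ε)) hV₀0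
      (by positivity) (fun V' hV' => hC₂ N T hN hNT hT b' hb'1 V' (hlow.trans hV'))
    -- combine
    have h9 : V * w ≤ (k : ℝ) / ((N + 1 : ℕ) : ℝ) *
        (w * V₀ + 2 * (C₂ * (N : ℝ) ^ (2 + ε)) / V₀) + V / 2 * w := by
      have h10 : (k : ℝ) / ((N + 1 : ℕ) : ℝ) * ∑ n ∈ Icc N (2 * N), ‖F (T + 1) a n‖ ≤
          (k : ℝ) / ((N + 1 : ℕ) : ℝ) * (w * V₀ + 2 * (C₂ * (N : ℝ) ^ (2 + ε)) / V₀) :=
        mul_le_mul_of_nonneg_left (hb'2.trans hlay) (by positivity)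
      linarith
    have e5 : (k : ℝ) / ((N + 1 : ℕ) : ℝ) * (w * V₀) = V * w / 4 := by
      rw [hV₀]
      field_simp
    have e6 : (k : ℝ) / ((N + 1 : ℕ) : ℝ) * (2 * (C₂ * (N : ℝ) ^ (2 + ε)) / V₀) =
        8 * C₂ * (N : ℝ) ^ (2 + ε) * k ^ 2 / (((N + 1 : ℕ) : ℝ) ^ 2 * V) := by
      rw [hV₀]
      field_simp
      ring
    rw [mul_add, e5, e6] at h9
    have h10 : V * w / 4 ≤ 8 * C₂ * (N : ℝ) ^ (2 + ε) * k ^ 2 / (((N + 1 : ℕ) : ℝ) ^ 2 * V) := by
      linarith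
    have h11 : (N : ℝ) ^ (2 + ε) ≤ ((N + 1 : ℕ) : ℝ) ^ 2 * (N : ℝ) ^ ε := by
      rw [Real.rpow_add hN0]
      refine mul_le_mul_of_nonneg_right ?_ (by positivity)
      have : (N : ℝ) ^ (2 : ℝ) = (N : ℝ) ^ (2 : ℕ) := by
        rw [← Real.rpow_natCast]; norm_num
      rw [this]
      refine pow_le_pow_left₀ hN0.le ?_ 2
      push_cast
      linarith
    have h12 : V * w / 4 ≤ 8 * C₂ * (N : ℝ) ^ ε * k ^ 2 / V := by
      refine h10.trans ?_
      rw [div_le_div_iff₀ (by positivity) hV0]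
      calc 8 * C₂ * (N : ℝ) ^ (2 + ε) * k ^ 2 * V ≤
            8 * C₂ * (((N + 1 : ℕ) : ℝ) ^ 2 * (N : ℝ) ^ ε) * k ^ 2 * V := by
            refine mul_le_mul_of_nonneg_right (mul_le_mul_of_nonneg_right
              (mul_le_mul_of_nonneg_left h11 (by positivity)) (by positivity)) hV0.le
        _ = _ := by ring
    have h13 : w ≤ 32 * C₂ * (N : ℝ) ^ ε * k ^ 2 / V ^ 2 := by
      rw [le_div_iff₀ (by positivity)]
      rw [le_div_iff₀ hV0] at h12
      have e7 : w * V ^ 2 = 4 * (V * w / 4 * V) := by ring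
      rw [e7]
      linarith
    refine h13.trans ?_
    refine div_le_div_of_nonneg_right ?_ (by positivity)
    refine mul_le_mul_of_nonneg_right (mul_le_mul_of_nonneg_right ?_ (by positivity))
      (by positivity)
    have := le_max_right (N₀ ^ (max A 0 + 1)) 0
    linarith
  · have h5 := N_small' N κ (ε / 4) hκ0 (by linarith) h4
    rcases le_total (k : ℝ) V with h6 | h6
    · rw [lv_zero N b hb I hIX hb0 V (by rw [hIk]; exact h6)]
      have := le_max_right (N₀ ^ (max A 0 + 1)) 0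
      positivity
    · have h7 : lv N b V (range (T + 1)) ≤ N₀ ^ (max A 0 + 1) := by
        refine (lv_card N b _ _).trans ?_
        rw [card_range]
        refine hTb.trans (Real.rpow_le_rpow hN0.le h5 ?_)
        have := le_max_right A 0
        linarith
      have h8 : (1 : ℝ) ≤ (N : ℝ) ^ ε * (k : ℝ) ^ 2 / V ^ 2 := by
        rw [le_div_iff₀ (by positivity), one_mul]
        calc V ^ 2 ≤ (k : ℝ) ^ 2 := pow_le_pow_left₀ hV0.le h6 2
          _ = 1 * (k : ℝ) ^ 2 := (one_mul _).symm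
          _ ≤ _ := mul_le_mul_of_nonneg_right hone (by positivity)
      have h9 : lv N b V (range (T + 1)) ≤ 32 * C₂ + max (N₀ ^ (max A 0 + 1)) 0 := by
        have := le_max_left (N₀ ^ (max A 0 + 1)) 0
        linarith
      have h10 : 0 ≤ 32 * C₂ + max (N₀ ^ (max A 0 + 1)) 0 := by positivity
      calc lv N b V (range (T + 1)) ≤ 32 * C₂ + max (N₀ ^ (max A 0 + 1)) 0 := h9
        _ = (32 * C₂ + max (N₀ ^ (max A 0 + 1)) 0) * 1 := (mul_one _).symm
        _ ≤ (32 * C₂ + max (N₀ ^ (max A 0 + 1)) 0) * ((N : ℝ) ^ ε * (k : ℝ) ^ 2 / V ^ 2) :=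
            mul_le_mul_of_nonneg_left h8 h10
        _ = _ := by ring

end Pool.Agent.P8H75.SU
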