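import Pool.Agent.P8H75.SU.App

set_option autoImplicit false
set_option linter.unusedSectionVars false

/-!
# Montgomery's conjecture and random supports: the converse
-/

namespace Pool.Agent.P8H75.SU

open Finset MeasureTheory
open Pool.Agent.P8H75.DS (D lv lv_mono lv_nonneg lv_card V_sq small T_bound)

theorem gc_of_gb (A δ : ℝ) (h : Gb A δ) : Gc A δ := by
  classical
  intro ε hε
  obtain ⟨C, hC⟩ := h 1 ε hε
  refine ⟨1, C, fun N T hN hNT hT => ?_⟩
  have hNr : (2 : ℝ) ≤ N := by exact_mod_cast hN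
  have h1 := hC N T hN hNT hT
  have h2 := card_filter_add_card_filter_not
    (s := powersetCard (ks δ N) (Icc N (2 * N))) (fun I => OkS N T ε C I)
  have hXc : (Icc N (2 * N)).card = N + 1 := by rw [Nat.card_Icc]; omega
  rw [card_powersetCard, hXc] at h2
  have h3 : (((powersetCard (ks δ N) (Icc N (2 * N))).filter
      (fun I => OkS N T ε C I)).card : ℝ) +
      (((powersetCard (ks δ N) (Icc N (2 * N))).filter
      (fun I => ¬ OkS N T ε C I)).card : ℝ) =
      (((N + 1).choose (ks δ N) : ℕ) : ℝ) := by exact_mod_cast h2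
  have h4 : (N : ℝ) ^ (-1 : ℝ) ≤ 1 / 2 := by
    rw [Real.rpow_neg_one, inv_le_comm₀ (by linarith) (by norm_num)]
    norm_num
    exact hN
  have h5 := mul_le_mul_of_nonneg_right h4
    (Nat.cast_nonneg (α := ℝ) ((N + 1).choose (ks δ N)))
  linarith

theorem ga_of_gc (A δ : ℝ) (hδ : 0 ≤ δ) (hδ1 : δ ≤ 1) (h : Gc A δ) : Ga A δ := by
  classical
  intro σ hσ ε hε
  set τ : ℝ := σ - (1 + δ) / 2 with hτ
  have hτ0 : 0 < τ := by rw [hτ]; linarith
  set ε' : ℝ := min ε (τ / 2) with hε'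
  have hε'0 : 0 < ε' := lt_min hε (by linarith)
  have hε'ε : ε' ≤ ε := min_le_left _ _
  have hε'τ : ε' ≤ τ / 2 := min_le_right _ _
  obtain ⟨B, C₃, hC₃⟩ := h ε' hε'0
  obtain ⟨C₁, hC₁1, hC₁⟩ := samp (max B 0 + 1) (max A 0 + 1)
    (by have := le_max_right B 0; linarith) (by have := le_max_right A 0; linarith)
  set κ : ℝ := max 8 (4 * C₁ / Real.sqrt τ) with hκ
  have hκ8 : 8 ≤ κ := le_max_left _ _
  have hκ2 : 4 * C₁ / Real.sqrt τ ≤ κ := le_max_right _ _
  have hκ0 : 0 < κ := by linarith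
  set N₀ : ℝ := κ ^ (1 / (τ / 2)) with hN₀
  set C₂ : ℝ := max C₃ 0 with hC₂
  have hC₂0 : 0 ≤ C₂ := le_max_right _ _
  refine ⟨128 * C₂ + max (N₀ ^ (max A 0 + 1)) 0 * N₀ ^ |2 - 2 * σ + ε|, ?_⟩
  intro N T hN hNT hT b hb
  have hNr : (2 : ℝ) ≤ N := by exact_mod_cast hN
  have hN0 : (0 : ℝ) < N := by linarith
  have hTb := T_bound A N T hN hT
  obtain ⟨k1, k2, k3, k4⟩ := ks_facts δ hδ hδ1 N (by omega)
  set k := ks δ N with hk
  have hk0 : (0 : ℝ) < k := by exact_mod_cast k1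
  have hsk : 0 < Real.sqrt k := Real.sqrt_pos.2 hk0
  have hpos : (0 : ℝ) < (N : ℝ) ^ (2 - 2 * σ + ε) := Real.rpow_pos_of_pos hN0 _
  have hs0 : 0 ≤ max (N₀ ^ (max A 0 + 1)) 0 * N₀ ^ |2 - 2 * σ + ε| := by positivity
  by_cases h4 : κ ≤ (N : ℝ) ^ (τ / 2)
  · have hcount := hC₁ N (T + 1) hN hTb k k1 k2
    have hgoodc := hC₃ N T hN hNT hT
    have hM0 : (0 : ℝ) < (((N + 1).choose k : ℕ) : ℝ) := by
      exact_mod_cast Nat.choose_pos k2
    have hlt : (N : ℝ) ^ (-(max B 0 + 1)) * (((N + 1).choose k : ℕ) : ℝ) <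
        (N : ℝ) ^ (-B) * (((N + 1).choose k : ℕ) : ℝ) := by
      refine mul_lt_mul_of_pos_right ?_ hM0
      refine Real.rpow_lt_rpow_of_exponent_lt (by linarith) ?_
      have := le_max_left B 0
      linarith
    obtain ⟨I, hI1, hI2⟩ : ∃ I ∈ (powersetCard k (Icc N (2 * N))).filter
        (fun I => OkS N T ε' C₃ I),
        I ∉ (powersetCard k (Icc N (2 * N))).filter (fun I => ¬ Sm N (T + 1) C₁ k I) := by
      by_contra hcon
      push Not at hcon
      have h5 := card_le_card (fun x hx => hcon x hx)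
      have h6 : (((powersetCard k (Icc N (2 * N))).filter
        (fun I => OkS N T ε' C₃ I)).card : ℝ) ≤
        (((powersetCard k (Icc N (2 * N))).filter
          (fun I => ¬ Sm N (T + 1) C₁ k I)).card : ℝ) := Nat.cast_le.2 h5
      linarith
    rw [mem_filter] at hI1
    have hgood : Sm N (T + 1) C₁ k I := by
      by_contra hcon
      exact hI2 (mem_filter.2 ⟨hI1.1, hcon⟩)
    obtain ⟨hIX, hIk⟩ := mem_powersetCard.1 hI1.1
    have hok := hI1.2
    set V : ℝ := (N : ℝ) ^ σ with hV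
    have hV0 : 0 < V := Real.rpow_pos_of_pos hN0 _
    set W := (range (T + 1)).filter (fun t : ℕ => V < ‖D N b (t : ℕ)‖) with hW
    have hWs : W ⊆ range (T + 1) := filter_subset _ _
    have hWc : lv N b V (range (T + 1)) = W.card := by
      unfold lv
      rw [hW]
    rw [hWc]
    set w : ℝ := (W.card : ℝ) with hw
    have hw0 : 0 ≤ w := Nat.cast_nonneg _
    obtain ⟨a, ha0, ha1, ha2⟩ := dualUp N (T + 1) (Icc N (2 * N)) subset_rfl b (fun n _ => hb n)
      (fun n hn hn' => absurd hn hn') V W hWs (fun t ht => (mem_filter.1 ht).2)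
    have hsum : ∑ t ∈ range (T + 1), ‖a t‖ ≤ w := by
      rw [← sum_subset hWs fun t _ ht => by rw [ha0 t ht, norm_zero]]
      refine (sum_le_sum fun t _ => ha1 t).trans (le_of_eq ?_)
      simp [hw]
    have hN1 : (0 : ℝ) < ((N + 1 : ℕ) : ℝ) := by positivity
    have hN2 : ((N + 1 : ℕ) : ℝ) ≤ 2 * N := by push_cast; linarith
    have hkN : 0 < (k : ℝ) / ((N + 1 : ℕ) : ℝ) := by positivity
    have h5 := hgood a
    have h6 := (abs_le.1 h5).1
    -- the error term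
    have h7 : C₁ * Real.sqrt (k * Real.log N) ≤ (k : ℝ) / ((N + 1 : ℕ) : ℝ) * V / 2 := by
      rw [Real.sqrt_mul hk0.le]
      have h8 := sqrt_log τ hτ0 N (by linarith)
      have e1 : (N : ℝ) ^ ((1 - δ) / 2) ≤ Real.sqrt k := by
        rw [Real.le_sqrt (by positivity) hk0.le, ← Real.rpow_natCast, ← Real.rpow_mul hN0.le]
        rw [show (1 - δ) / 2 * ((2 : ℕ) : ℝ) = 1 - δ by push_cast; ring]
        exact k3
      have e2 : C₁ * Real.sqrt (Real.log N) ≤ (N : ℝ) ^ τ / 4 := by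
        calc C₁ * Real.sqrt (Real.log N) ≤ C₁ * ((N : ℝ) ^ (τ / 2) / Real.sqrt τ) :=
              mul_le_mul_of_nonneg_left h8 (by linarith)
          _ = (4 * C₁ / Real.sqrt τ) * (N : ℝ) ^ (τ / 2) / 4 := by ring
          _ ≤ (N : ℝ) ^ (τ / 2) * (N : ℝ) ^ (τ / 2) / 4 := by
              refine div_le_div_of_nonneg_right (mul_le_mul_of_nonneg_right (hκ2.trans h4)
                (by positivity)) (by norm_num)
          _ = (N : ℝ) ^ τ / 4 := by rw [← Real.rpow_add hN0]; congr 2; ring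
      have e3 : (k : ℝ) = Real.sqrt k * Real.sqrt k := (Real.mul_self_sqrt hk0.le).symm
      have e4 : (N : ℝ) ^ τ / 4 ≤ Real.sqrt k / ((N + 1 : ℕ) : ℝ) * V / 2 := by
        have e5 : (N : ℝ) ^ τ * (2 * N) = 2 * ((N : ℝ) ^ ((1 - δ) / 2) * V) := by
          rw [hV, ← Real.rpow_add hN0]
          have : (N : ℝ) ^ τ * (2 * N) = 2 * ((N : ℝ) ^ τ * (N : ℝ) ^ (1 : ℝ)) := by
            rw [Real.rpow_one]; ring
          rw [this, ← Real.rpow_add hN0]
          congr 2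
          rw [hτ]
          ring
        have e6 : (N : ℝ) ^ τ * ((N + 1 : ℕ) : ℝ) ≤ 2 * (Real.sqrt k * V) := by
          calc (N : ℝ) ^ τ * ((N + 1 : ℕ) : ℝ) ≤ (N : ℝ) ^ τ * (2 * N) :=
                mul_le_mul_of_nonneg_left hN2 (by positivity)
            _ = 2 * ((N : ℝ) ^ ((1 - δ) / 2) * V) := e5
            _ ≤ _ := by
                have := mul_le_mul_of_nonneg_right e1 hV0.le
                linarith
        have e7 : Real.sqrt k / ((N + 1 : ℕ) : ℝ) * V / 2 =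
            (2 * (Real.sqrt k * V)) / ((N + 1 : ℕ) : ℝ) / 4 := by
          field_simp
          ring
        rw [e7]
        refine div_le_div_of_nonneg_right ?_ (by norm_num)
        rw [le_div_iff₀ hN1]
        exact e6
      calc C₁ * (Real.sqrt k * Real.sqrt (Real.log N)) =
            Real.sqrt k * (C₁ * Real.sqrt (Real.log N)) := by ring
        _ ≤ Real.sqrt k * (Real.sqrt k / ((N + 1 : ℕ) : ℝ) * V / 2) :=
            mul_le_mul_of_nonneg_left (e2.trans e4) hsk.le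
        _ = (Real.sqrt k * Real.sqrt k) / ((N + 1 : ℕ) : ℝ) * V / 2 := by ring
        _ = _ := by rw [← e3]
    have h8 : C₁ * Real.sqrt (k * Real.log N) * ∑ t ∈ range (T + 1), ‖a t‖ ≤
        (k : ℝ) / ((N + 1 : ℕ) : ℝ) * V / 2 * w := by
      refine mul_le_mul h7 hsum (sum_nonneg fun t _ => norm_nonneg _) (by positivity)
    obtain ⟨b', hb'1, hb'0, hb'2⟩ := dualDown N (T + 1) I hIX a ha1 W hWs ha0
    set V₀ : ℝ := (k : ℝ) / ((N + 1 : ℕ) : ℝ) * V / 4 with hV₀
    have hV₀0 : 0 < V₀ := by positivity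
    have hlow : (N : ℝ) ^ ε' * Real.sqrt I.card ≤ V₀ := by
      rw [hIk]
      have e1 : (N : ℝ) ^ ((1 - δ) / 2) ≤ Real.sqrt k := by
        rw [Real.le_sqrt (by positivity) hk0.le, ← Real.rpow_natCast, ← Real.rpow_mul hN0.le]
        rw [show (1 - δ) / 2 * ((2 : ℕ) : ℝ) = 1 - δ by push_cast; ring]
        exact k3
      have e3 : (k : ℝ) = Real.sqrt k * Real.sqrt k := (Real.mul_self_sqrt hk0.le).symm
      have e8 : (N : ℝ) ^ ε' * ((N + 1 : ℕ) : ℝ) * 4 ≤ Real.sqrt k * V := by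
        calc (N : ℝ) ^ ε' * ((N + 1 : ℕ) : ℝ) * 4 ≤ (N : ℝ) ^ (τ / 2) * (2 * N) * 4 := by
              refine mul_le_mul_of_nonneg_right (mul_le_mul
                (Real.rpow_le_rpow_of_exponent_le (by linarith) hε'τ) hN2 hN1.le
                (by positivity)) (by norm_num)
          _ = 8 * (N : ℝ) ^ (τ / 2) * N := by ring
          _ ≤ (N : ℝ) ^ (τ / 2) * (N : ℝ) ^ (τ / 2) * N :=
              mul_le_mul_of_nonneg_right (mul_le_mul_of_nonneg_right (hκ8.trans h4)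
                (by positivity)) hN0.le
          _ = (N : ℝ) ^ ((1 - δ) / 2) * V := by
              rw [hV, ← Real.rpow_add hN0, ← Real.rpow_add hN0, ← Real.rpow_add_one hN0.ne']
              congr 1
              rw [hτ]
              ring
          _ ≤ Real.sqrt k * V := mul_le_mul_of_nonneg_right e1 hV0.le
      have e9 : V₀ = Real.sqrt k * (Real.sqrt k * V) / ((N + 1 : ℕ) : ℝ) / 4 := by
        rw [hV₀]
        calc (k : ℝ) / ((N + 1 : ℕ) : ℝ) * V / 4 =
              (Real.sqrt k * Real.sqrt k) / ((N + 1 : ℕ) : ℝ) * V / 4 := by rw [← e3]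
          _ = _ := by ring
      rw [e9, le_div_iff₀ (by norm_num), le_div_iff₀ hN1]
      calc (N : ℝ) ^ ε' * Real.sqrt k * 4 * ((N + 1 : ℕ) : ℝ) =
            Real.sqrt k * ((N : ℝ) ^ ε' * ((N + 1 : ℕ) : ℝ) * 4) := by ring
        _ ≤ _ := mul_le_mul_of_nonneg_left e8 hsk.le
    have hlay := layer (T + 1) W hWs (fun t => ‖D N b' (t : ℕ)‖) V₀
      (C₂ * (N : ℝ) ^ ε' * (k : ℝ) ^ 2) hV₀0 (by positivity) (fun V' hV' => by
        have hV'0 : 0 < V' := lt_of_lt_of_le hV₀0 hV'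
        have h9 := hok b' hb'1 hb'0 V' (hlow.trans hV')
        rw [hIk] at h9
        refine h9.trans ?_
        refine div_le_div_of_nonneg_right ?_ (by positivity)
        exact mul_le_mul_of_nonneg_right (mul_le_mul_of_nonneg_right (le_max_left _ _)
          (by positivity)) (by positivity))
    -- combine
    have h9 : (k : ℝ) / ((N + 1 : ℕ) : ℝ) * (V * w) ≤
        (w * V₀ + 2 * (C₂ * (N : ℝ) ^ ε' * (k : ℝ) ^ 2) / V₀) +
          (k : ℝ) / ((N + 1 : ℕ) : ℝ) * V / 2 * w := by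
      have h10 := mul_le_mul_of_nonneg_left ha2 hkN.le
      have h11 := hb'2.trans hlay
      linarith
    have e5 : w * V₀ = (k : ℝ) / ((N + 1 : ℕ) : ℝ) * V * w / 4 := by
      rw [hV₀]
      ring
    have h12 : (k : ℝ) / ((N + 1 : ℕ) : ℝ) * V * w / 4 ≤
        2 * (C₂ * (N : ℝ) ^ ε' * (k : ℝ) ^ 2) / V₀ := by
      rw [e5] at h9
      have : (k : ℝ) / ((N + 1 : ℕ) : ℝ) * (V * w) = (k : ℝ) / ((N + 1 : ℕ) : ℝ) * V * w := by ring
      rw [this] at h9
      linarith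
    have h13 : w ≤ 32 * C₂ * (N : ℝ) ^ ε' * ((N + 1 : ℕ) : ℝ) ^ 2 / V ^ 2 := by
      rw [le_div_iff₀ (by positivity)]
      rw [le_div_iff₀ hV₀0] at h12
      have e6 : (k : ℝ) / ((N + 1 : ℕ) : ℝ) * V * w / 4 * V₀ =
          (w * V ^ 2) * ((k : ℝ) ^ 2 / (16 * ((N + 1 : ℕ) : ℝ) ^ 2)) := by
        rw [hV₀]
        field_simp
        ring
      have e7 : 2 * (C₂ * (N : ℝ) ^ ε' * (k : ℝ) ^ 2) =
          (32 * C₂ * (N : ℝ) ^ ε' * ((N + 1 : ℕ) : ℝ) ^ 2) *
            ((k : ℝ) ^ 2 / (16 * ((N + 1 : ℕ) : ℝ) ^ 2)) := by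
        field_simp
        ring
      rw [e6, e7] at h12
      exact le_of_mul_le_mul_right h12 (by positivity)
    have h14 : w ≤ 128 * C₂ * (N : ℝ) ^ (2 - 2 * σ + ε) := by
      refine h13.trans ?_
      have h15 : ((N + 1 : ℕ) : ℝ) ^ 2 ≤ 4 * (N : ℝ) ^ 2 := by
        refine (pow_le_pow_left₀ hN1.le hN2 2).trans (le_of_eq (by ring))
      calc 32 * C₂ * (N : ℝ) ^ ε' * ((N + 1 : ℕ) : ℝ) ^ 2 / V ^ 2 ≤
            32 * C₂ * (N : ℝ) ^ ε' * (4 * (N : ℝ) ^ 2) / V ^ 2 := by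
            refine div_le_div_of_nonneg_right (mul_le_mul_of_nonneg_left h15 (by positivity))
              (by positivity)
        _ = 128 * C₂ * ((N : ℝ) ^ ε' * ((N : ℝ) ^ 2 / V ^ 2)) := by ring
        _ = 128 * C₂ * ((N : ℝ) ^ ε' * (N : ℝ) ^ (2 - 2 * σ)) := by
            rw [hV, V_sq N (by omega)]
        _ = 128 * C₂ * (N : ℝ) ^ (ε' + (2 - 2 * σ)) := by rw [← Real.rpow_add hN0]
        _ ≤ _ := by
            refine mul_le_mul_of_nonneg_left (Real.rpow_le_rpow_of_exponent_le (by linarith) ?_)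
              (by positivity)
            linarith
    refine h14.trans (mul_le_mul_of_nonneg_right ?_ hpos.le)
    linarith
  · have h5 := N_small' N κ (τ / 2) hκ0 (by linarith) h4
    have h6 : lv N b ((N : ℝ) ^ σ) (range (T + 1)) ≤ N₀ ^ (max A 0 + 1) := by
      refine (lv_card N b _ _).trans ?_
      rw [card_range]
      refine hTb.trans (Real.rpow_le_rpow hN0.le h5 ?_)
      have := le_max_right A 0
      linarith
    refine h6.trans ((small N (by omega) N₀ (2 - 2 * σ + ε) _ h5).trans ?_)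
    refine mul_le_mul_of_nonneg_right ?_ hpos.le
    linarith [mul_nonneg (show (0 : ℝ) ≤ 128 by norm_num) hC₂0]

theorem ga_zero (A : ℝ) : Ga A 0 ↔ ∀ δ : ℝ, 0 < δ → δ ≤ 1 → Gc A δ := by
  constructor
  · intro h δ hδ hδ1
    refine gc_of_gb A δ (gb_of_ga A δ hδ.le hδ1 ?_)
    intro σ hσ ε hε
    exact h σ (by linarith) ε hε
  · intro h σ hσ ε hε
    set δ : ℝ := min (σ - 1 / 2) 1 with hδ
    have hδ0 : 0 < δ := lt_min (by linarith) one_pos
    have hδ1 : δ ≤ 1 := min_le_right _ _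
    have hδσ : δ ≤ σ - 1 / 2 := min_le_left _ _
    exact ga_of_gc A δ hδ0.le hδ1 (h δ hδ0 hδ1) σ (by linarith) ε hε

end Pool.Agent.P8H75.SU
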