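import Mathlib

set_option autoImplicit false
set_option linter.unusedSectionVars false

/-!
# Random subsets: product weights, symmetrization, contraction for the absolute value
-/

namespace Pool.Agent.P8H75.SU

open Finset

variable {α : Type*} [DecidableEq α]

open Classical in
/-- indicator of a proposition -/
noncomputable def ind (P : Prop) : ℝ := if P then 1 else 0

theorem ind_nonneg (P : Prop) : 0 ≤ ind P := by unfold ind; split_ifs <;> norm_num
theorem ind_le_one (P : Prop) : ind P ≤ 1 := by unfold ind; split_ifs <;> norm_num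
theorem ind_true {P : Prop} (h : P) : ind P = 1 := by unfold ind; rw [if_pos h]
theorem ind_false {P : Prop} (h : ¬ P) : ind P = 0 := by unfold ind; rw [if_neg h]

theorem ind_mono {P Q : Prop} (h : P → Q) : ind P ≤ ind Q := by
  by_cases hP : P
  · rw [ind_true hP, ind_true (h hP)]
  · rw [ind_false hP]; exact ind_nonneg Q

/-- the weight of `S` when every element of `X` is chosen with probability `p` -/
noncomputable def wt (p : ℝ) (X S : Finset α) : ℝ := p ^ S.card * (1 - p) ^ (X \ S).card

theorem wt_nonneg {p : ℝ} (h0 : 0 ≤ p) (h1 : p ≤ 1) (X S : Finset α) : 0 ≤ wt p X S := by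
  unfold wt
  have : 0 ≤ 1 - p := by linarith
  positivity

theorem gen (p : ℝ) (X : Finset α) (f : α → ℝ) :
    ∑ S ∈ X.powerset, wt p X S * ∏ i ∈ S, f i = ∏ i ∈ X, (p * f i + (1 - p)) := by
  rw [prod_add]
  refine sum_congr rfl fun S _ => ?_
  rw [prod_mul_distrib, prod_const, prod_const]
  unfold wt
  ring

theorem wt_sum (p : ℝ) (X : Finset α) : ∑ S ∈ X.powerset, wt p X S = 1 := by
  have h := gen p X (fun _ => 1)
  simp only [prod_const_one, mul_one] at h
  rw [h]
  simp

/-- the signs -/
noncomputable def sg (D : Finset α) (n : α) : ℝ := if n ∈ D then -1 else 1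

theorem sg_sq (D : Finset α) (n : α) : sg D n ^ 2 = 1 := by unfold sg; split_ifs <;> norm_num

theorem sg_insert_self (D : Finset α) (m : α) : sg (insert m D) m = -1 := by
  unfold sg; rw [if_pos (mem_insert_self _ _)]

theorem sg_not_mem {D : Finset α} {m : α} (h : m ∉ D) : sg D m = 1 := by
  unfold sg; rw [if_neg h]

theorem sg_insert_ne {D : Finset α} {m n : α} (h : n ≠ m) : sg (insert m D) n = sg D n := by
  unfold sg
  simp [h]

/-- the two point inequality -/
theorem two_point {H : Type*} (b x : H → ℝ) (y v : ℝ) :
    ind (∃ h, v < b h + y * |x h|) + ind (∃ h, v < b h - y * |x h|) ≤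
      ind (∃ h, v < b h + y * x h) + ind (∃ h, v < b h - y * x h) := by
  have key : ∀ h, (b h + y * |x h| = b h + y * x h ∧ b h - y * |x h| = b h - y * x h) ∨
      (b h + y * |x h| = b h - y * x h ∧ b h - y * |x h| = b h + y * x h) := by
    intro h
    rcases abs_cases (x h) with ⟨h1, -⟩ | ⟨h1, -⟩
    · left; rw [h1]; exact ⟨rfl, rfl⟩
    · right; rw [h1]; constructor <;> ring
  by_cases hP : ∃ h, v < b h + y * x h
  · by_cases hQ : ∃ h, v < b h - y * x h
    · rw [ind_true hP, ind_true hQ]
      exact add_le_add (ind_le_one _) (ind_le_one _)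
    · rw [ind_true hP, ind_false hQ]
      -- one of the two events on the left fails
      rcases le_total 0 y with hy | hy
      · have : ¬ ∃ h, v < b h - y * |x h| := by
          rintro ⟨h, hh⟩
          apply hQ
          refine ⟨h, lt_of_lt_of_le hh ?_⟩
          have := mul_le_mul_of_nonneg_left (le_abs_self (x h)) hy
          linarith
        rw [ind_false this]
        have := ind_le_one (∃ h, v < b h + y * |x h|)
        linarith
      · have : ¬ ∃ h, v < b h + y * |x h| := by
          rintro ⟨h, hh⟩
          apply hQ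
          refine ⟨h, lt_of_lt_of_le hh ?_⟩
          have := mul_le_mul_of_nonneg_left (neg_abs_le (x h)) (neg_nonneg.2 hy)
          nlinarith
        rw [ind_false this]
        have := ind_le_one (∃ h, v < b h - y * |x h|)
        linarith
  · by_cases hQ : ∃ h, v < b h - y * x h
    · rw [ind_false hP, ind_true hQ]
      rcases le_total 0 y with hy | hy
      · have : ¬ ∃ h, v < b h - y * |x h| := by
          rintro ⟨h, hh⟩
          apply hP
          refine ⟨h, lt_of_lt_of_le hh ?_⟩
          have := mul_le_mul_of_nonneg_left (neg_abs_le (x h)) hy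
          linarith
        rw [ind_false this]
        have := ind_le_one (∃ h, v < b h + y * |x h|)
        linarith
      · have : ¬ ∃ h, v < b h + y * |x h| := by
          rintro ⟨h, hh⟩
          apply hP
          refine ⟨h, lt_of_lt_of_le hh ?_⟩
          have := mul_le_mul_of_nonneg_left (le_abs_self (x h)) (neg_nonneg.2 hy)
          linarith
        rw [ind_false this]
        have := ind_le_one (∃ h, v < b h - y * |x h|)
        linarith
    · have h1 : ¬ ∃ h, v < b h + y * |x h| := by
        rintro ⟨h, hh⟩
        rcases key h with ⟨h1, -⟩ | ⟨h1, -⟩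
        · exact hP ⟨h, by rw [← h1]; exact hh⟩
        · exact hQ ⟨h, by rw [← h1]; exact hh⟩
      have h2 : ¬ ∃ h, v < b h - y * |x h| := by
        rintro ⟨h, hh⟩
        rcases key h with ⟨-, h1⟩ | ⟨-, h1⟩
        · exact hQ ⟨h, by rw [← h1]; exact hh⟩
        · exact hP ⟨h, by rw [← h1]; exact hh⟩
      rw [ind_false h1, ind_false h2, ind_false hP, ind_false hQ]

/-- **contraction for the absolute value**, in the form of events -/
theorem contraction {H : Type*} (y : α → ℝ) (x : H → α → ℝ) (v : ℝ) (X : Finset α) :
    ∀ a : H → ℝ, ∑ D ∈ X.powerset, ind (∃ h, v < a h + ∑ n ∈ X, sg D n * (y n * |x h n|)) ≤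
      ∑ D ∈ X.powerset, ind (∃ h, v < a h + ∑ n ∈ X, sg D n * (y n * x h n)) := by
  induction X using Finset.induction_on with
  | empty => intro a; simp
  | insert m X hm ih =>
    intro a
    rw [sum_powerset_insert hm, sum_powerset_insert hm]
    have hl1 : ∀ z : H → α → ℝ, ∀ D ∈ X.powerset, ∀ h : H,
        a h + ∑ n ∈ insert m X, sg D n * (y n * z h n) =
          (a h + y m * z h m) + ∑ n ∈ X, sg D n * (y n * z h n) := by
      intro z D hD h
      rw [sum_insert hm, sg_not_mem (fun hmD => hm (mem_powerset.1 hD hmD))]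
      ring
    have hl2 : ∀ z : H → α → ℝ, ∀ D ∈ X.powerset, ∀ h : H,
        a h + ∑ n ∈ insert m X, sg (insert m D) n * (y n * z h n) =
          (a h - y m * z h m) + ∑ n ∈ X, sg D n * (y n * z h n) := by
      intro z D hD h
      rw [sum_insert hm, sg_insert_self]
      have : ∑ n ∈ X, sg (insert m D) n * (y n * z h n) = ∑ n ∈ X, sg D n * (y n * z h n) := by
        refine sum_congr rfl fun n hn => ?_
        rw [sg_insert_ne (ne_of_mem_of_not_mem hn hm)]
      rw [this]
      ring
    have hA : ∀ z : H → α → ℝ,
        ∑ D ∈ X.powerset, ind (∃ h, v < a h + ∑ n ∈ insert m X, sg D n * (y n * z h n)) +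
        ∑ D ∈ X.powerset, ind (∃ h, v < a h + ∑ n ∈ insert m X, sg (insert m D) n * (y n * z h n)) =
        ∑ D ∈ X.powerset, ind (∃ h, v < (a h + y m * z h m) + ∑ n ∈ X, sg D n * (y n * z h n)) +
        ∑ D ∈ X.powerset, ind (∃ h, v < (a h - y m * z h m) + ∑ n ∈ X, sg D n * (y n * z h n)) := by
      intro z
      congr 1
      · refine sum_congr rfl fun D hD => ?_
        simp only [hl1 z D hD]
      · refine sum_congr rfl fun D hD => ?_
        simp only [hl2 z D hD]
    have e1 := hA (fun h n => |x h n|)
    have e2 := hA x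
    rw [e1, e2]
    refine (add_le_add (ih (fun h => a h + y m * |x h m|)) (ih (fun h => a h - y m * |x h m|))).trans ?_
    rw [← sum_add_distrib, ← sum_add_distrib]
    refine sum_le_sum fun D _ => ?_
    have := two_point (fun h => a h + ∑ n ∈ X, sg D n * (y n * x h n)) (fun h => x h m) (y m) v
    refine le_trans (le_of_eq ?_) (this.trans (le_of_eq ?_))
    · congr 1
      · congr 1
        simp only [eq_iff_iff]
        refine exists_congr fun h => ?_
        rw [show a h + y m * |x h m| + ∑ n ∈ X, sg D n * (y n * x h n) =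
          a h + ∑ n ∈ X, sg D n * (y n * x h n) + y m * |x h m| by ring]
      · congr 1
        simp only [eq_iff_iff]
        refine exists_congr fun h => ?_
        rw [show a h - y m * |x h m| + ∑ n ∈ X, sg D n * (y n * x h n) =
          a h + ∑ n ∈ X, sg D n * (y n * x h n) - y m * |x h m| by ring]
    · congr 1
      · congr 1
        simp only [eq_iff_iff]
        refine exists_congr fun h => ?_
        rw [show a h + y m * x h m + ∑ n ∈ X, sg D n * (y n * x h n) =
          a h + ∑ n ∈ X, sg D n * (y n * x h n) + y m * x h m by ring]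
      · congr 1
        simp only [eq_iff_iff]
        refine exists_congr fun h => ?_
        rw [show a h - y m * x h m + ∑ n ∈ X, sg D n * (y n * x h n) =
          a h + ∑ n ∈ X, sg D n * (y n * x h n) - y m * x h m by ring]

/-- exponential moments of signed sums -/
theorem hoeff (z : α → ℝ) (l : ℝ) (X : Finset α) :
    ∑ D ∈ X.powerset, Real.exp (l * ∑ n ∈ X, sg D n * z n) ≤
      2 ^ X.card * Real.exp (l ^ 2 / 2 * ∑ n ∈ X, z n ^ 2) := by
  have h1 : ∑ D ∈ X.powerset, Real.exp (l * ∑ n ∈ X, sg D n * z n) =
      ∏ n ∈ X, (Real.exp (-(l * z n)) + Real.exp (l * z n)) := by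
    rw [prod_add]
    refine sum_congr rfl fun D hD => ?_
    rw [mul_sum, Real.exp_sum, ← prod_sdiff (mem_powerset.1 hD), mul_comm]
    congr 1
    · refine prod_congr rfl fun n hn => ?_
      unfold sg
      rw [if_pos hn]
      congr 1
      ring
    · refine prod_congr rfl fun n hn => ?_
      unfold sg
      rw [if_neg (mem_sdiff.1 hn).2]
      congr 1
      ring
  rw [h1, mul_sum, Real.exp_sum, ← prod_const, ← prod_mul_distrib]
  refine prod_le_prod (fun n _ => by positivity) fun n _ => ?_
  have h2 := Real.cosh_le_exp_half_sq (l * z n)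
  rw [Real.cosh_eq] at h2
  have h3 : (l * z n) ^ 2 / 2 = l ^ 2 / 2 * z n ^ 2 := by ring
  rw [h3] at h2
  linarith

end Pool.Agent.P8H75.SU
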