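import Pool.Agent.P8H75.SU.Fix

set_option autoImplicit false
set_option linter.unusedSectionVars false

/-!
# Complex exponential sums
-/

namespace Pool.Agent.P8H75.SU

open Finset MeasureTheory

/-- the integral of `|cos|` over a period -/
noncomputable def c0 : ℝ := ∫ θ in (0 : ℝ)..2 * Real.pi, |Real.cos θ|

theorem c0_ge : Real.pi ≤ c0 := by
  have h1 : ∫ θ in (0 : ℝ)..2 * Real.pi, Real.cos θ ^ 2 ≤ c0 := by
    refine intervalIntegral.integral_mono_on (by positivity)
      ((Real.continuous_cos.pow 2).intervalIntegrable _ _)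
      (Real.continuous_cos.abs.intervalIntegrable _ _) fun θ _ => ?_
    rw [← sq_abs]
    have := Real.abs_cos_le_one θ
    nlinarith [abs_nonneg (Real.cos θ)]
  rw [integral_cos_sq] at h1
  simp only [Real.cos_two_pi, Real.sin_two_pi, mul_zero, Real.cos_zero, Real.sin_zero] at h1
  linarith

theorem rot (z : ℂ) : ∫ θ in (0 : ℝ)..2 * Real.pi,
    |(Complex.exp (-(θ : ℂ) * Complex.I) * z).re| = c0 * ‖z‖ := by
  have h1 : ∀ θ : ℝ, |(Complex.exp (-(θ : ℂ) * Complex.I) * z).re| =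
      ‖z‖ * |Real.cos (z.arg - θ)| := by
    intro θ
    have e : Complex.exp (-(θ : ℂ) * Complex.I) * z =
        (‖z‖ : ℂ) * Complex.exp (((z.arg - θ : ℝ) : ℂ) * Complex.I) := by
      conv_lhs => rw [← Complex.norm_mul_exp_arg_mul_I z]
      rw [mul_left_comm, ← Complex.exp_add]
      congr 2
      push_cast
      ring
    rw [e, Complex.re_ofReal_mul, Complex.exp_ofReal_mul_I_re, abs_mul, abs_of_nonneg (norm_nonneg z)]
  simp_rw [h1]
  rw [intervalIntegral.integral_const_mul, mul_comm]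
  congr 1
  rw [intervalIntegral.integral_comp_sub_left (fun x => |Real.cos x|) z.arg]
  have hp : Function.Periodic (fun x => |Real.cos x|) (2 * Real.pi) := fun x => by
    simp only [Real.cos_add_two_pi]
  have h2 := hp.intervalIntegral_add_eq (z.arg - 2 * Real.pi) 0
  rw [zero_add, show z.arg - 2 * Real.pi + 2 * Real.pi = z.arg by ring] at h2
  rw [sub_zero, h2]
  rfl

/-- the exponential sum `∑_{t < M} a_t n^{it}` -/
noncomputable def F (M : ℕ) (a : ℕ → ℂ) (n : ℕ) : ℂ :=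
  ∑ t ∈ range M, a t * Complex.exp ((((t : ℝ) * Real.log (n : ℝ) : ℝ) : ℂ) * Complex.I)

theorem F_norm (M : ℕ) (a : ℕ → ℂ) (n : ℕ) : ‖F M a n‖ ≤ ∑ t ∈ range M, ‖a t‖ := by
  unfold F
  refine (norm_sum_le _ _).trans (sum_le_sum fun t _ => ?_)
  rw [norm_mul, Complex.norm_exp_ofReal_mul_I, mul_one]

/-- the real functions -/
noncomputable def gm (M : ℕ) (j : Fin M × Bool) (n : ℕ) : ℝ :=
  if j.2 then Real.cos ((j.1 : ℕ) * Real.log (n : ℝ)) else Real.sin ((j.1 : ℕ) * Real.log (n : ℝ))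

theorem gm_le (M : ℕ) (j : Fin M × Bool) (n : ℕ) : |gm M j n| ≤ 1 := by
  unfold gm
  split_ifs
  · exact Real.abs_cos_le_one _
  · exact Real.abs_sin_le_one _

theorem gd_cx (M : ℕ) (X S : Finset ℕ) (p u : ℝ) (hG : Gd (gm M) X p u S)
    (a : ℕ → ℂ) :
    abs ((∑ n ∈ S, ‖F M a n‖) - p * ∑ n ∈ X, ‖F M a n‖) ≤ 4 * u * ∑ t ∈ range M, ‖a t‖ := by
  set A : ℝ := ∑ t ∈ range M, ‖a t‖ with hA
  have hA0 : 0 ≤ A := sum_nonneg fun t _ => norm_nonneg _
  have hu0 : 0 ≤ u := (abs_nonneg _).trans (hG ⟨fun _ => 0, by simp⟩)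
  rcases hA0.eq_or_lt with hA1 | hA1
  · have h1 : ∀ n, ‖F M a n‖ = 0 := fun n =>
      le_antisymm ((F_norm M a n).trans (le_of_eq hA1.symm)) (norm_nonneg _)
    simp only [h1, sum_const_zero, mul_zero, sub_zero, abs_zero]
    positivity
  -- a single rotation
  have h2 : ∀ θ : ℝ, abs ((∑ n ∈ S, |(Complex.exp (-(θ : ℂ) * Complex.I) * F M a n).re|) -
      p * ∑ n ∈ X, |(Complex.exp (-(θ : ℂ) * Complex.I) * F M a n).re|) ≤ 2 * u * A := by
    intro θ
    set b : ℕ → ℂ := fun t => Complex.exp (-(θ : ℂ) * Complex.I) * a t with hb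
    have hbn : ∀ t, ‖b t‖ = ‖a t‖ := by
      intro t
      rw [hb]
      simp only [norm_mul]
      have : ‖Complex.exp (-(θ : ℂ) * Complex.I)‖ = 1 := by
        rw [show -(θ : ℂ) * Complex.I = ((-θ : ℝ) : ℂ) * Complex.I by push_cast; ring]
        exact Complex.norm_exp_ofReal_mul_I _
      rw [this, one_mul]
    set c : Fin M × Bool → ℝ := fun j => (if j.2 then (b j.1).re else -(b j.1).im) / (2 * A) with hc
    have hc1 : ∑ j, |c j| ≤ 1 := by
      rw [Fintype.sum_prod_type]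
      have h3 : ∀ i : Fin M, ∑ y : Bool, |c (i, y)| ≤ ‖a i‖ / A := by
        intro i
        rw [Fintype.sum_bool]
        simp only [hc, if_true, Bool.false_eq_true, if_false]
        rw [abs_div, abs_div, abs_neg, abs_of_pos (by positivity : (0 : ℝ) < 2 * A), ← add_div]
        rw [div_le_div_iff₀ (by positivity) hA1]
        have e1 := Complex.abs_re_le_norm (b i)
        have e2 := Complex.abs_im_le_norm (b i)
        rw [hbn] at e1 e2
        nlinarith
      refine (sum_le_sum fun i _ => h3 i).trans ?_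
      rw [← sum_div, div_le_one hA1, hA, ← Fin.sum_univ_eq_sum_range (fun t => ‖a t‖) M]
    have h4 : ∀ n, cv (gm M) ⟨c, hc1⟩ n =
        (Complex.exp (-(θ : ℂ) * Complex.I) * F M a n).re / (2 * A) := by
      intro n
      have e : Complex.exp (-(θ : ℂ) * Complex.I) * F M a n = F M b n := by
        unfold F
        rw [mul_sum]
        refine sum_congr rfl fun t _ => ?_
        rw [hb]
        ring
      rw [e]
      unfold cv F
      rw [Complex.re_sum, Fintype.sum_prod_type, sum_div,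
        ← Fin.sum_univ_eq_sum_range (fun t => (b t * Complex.exp ((((t : ℝ) * Real.log (n : ℝ) : ℝ)
          : ℂ) * Complex.I)).re / (2 * A)) M]
      refine sum_congr rfl fun i _ => ?_
      rw [Fintype.sum_bool]
      simp only [hc, gm, if_true, Bool.false_eq_true, if_false]
      rw [Complex.mul_re (b i), Complex.exp_ofReal_mul_I_re, Complex.exp_ofReal_mul_I_im]
      ring
    have h5 := hG ⟨c, hc1⟩
    simp only [h4, abs_div, abs_of_pos (by positivity : (0 : ℝ) < 2 * A)] at h5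
    rw [← sum_div, ← sum_div, ← mul_div_assoc, ← sub_div, abs_div,
      abs_of_pos (by positivity : (0 : ℝ) < 2 * A), div_le_iff₀ (by positivity)] at h5
    linarith
  -- integrate
  have hcont : ∀ n, Continuous fun θ : ℝ => |(Complex.exp (-(θ : ℂ) * Complex.I) * F M a n).re| := by
    intro n
    fun_prop
  have h6 : c0 * ((∑ n ∈ S, ‖F M a n‖) - p * ∑ n ∈ X, ‖F M a n‖) =
      ∫ θ in (0 : ℝ)..2 * Real.pi,
        ((∑ n ∈ S, |(Complex.exp (-(θ : ℂ) * Complex.I) * F M a n).re|) -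
          p * ∑ n ∈ X, |(Complex.exp (-(θ : ℂ) * Complex.I) * F M a n).re|) := by
    rw [intervalIntegral.integral_sub
      ((continuous_finsetSum _ fun n _ => hcont n).intervalIntegrable _ _)
      (((continuous_finsetSum _ fun n _ => hcont n).const_mul p).intervalIntegrable _ _),
      intervalIntegral.integral_const_mul,
      intervalIntegral.integral_finsetSum fun n _ => (hcont n).intervalIntegrable _ _,
      intervalIntegral.integral_finsetSum fun n _ => (hcont n).intervalIntegrable _ _]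
    simp_rw [rot]
    rw [← mul_sum, ← mul_sum]
    ring
  have h7 : abs (c0 * ((∑ n ∈ S, ‖F M a n‖) - p * ∑ n ∈ X, ‖F M a n‖)) ≤
      2 * u * A * (2 * Real.pi) := by
    rw [h6]
    have h8 := intervalIntegral.norm_integral_le_of_norm_le_const (a := 0) (b := 2 * Real.pi)
      (C := 2 * u * A) (f := fun θ : ℝ =>
        ((∑ n ∈ S, |(Complex.exp (-(θ : ℂ) * Complex.I) * F M a n).re|) -
          p * ∑ n ∈ X, |(Complex.exp (-(θ : ℂ) * Complex.I) * F M a n).re|))
      (fun θ _ => by rw [Real.norm_eq_abs]; exact h2 θ)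
    rw [Real.norm_eq_abs, sub_zero, abs_of_pos (by positivity : (0 : ℝ) < 2 * Real.pi)] at h8
    exact h8
  rw [abs_mul, abs_of_pos (lt_of_lt_of_le Real.pi_pos c0_ge)] at h7
  have h9 := mul_le_mul_of_nonneg_right c0_ge
    (abs_nonneg ((∑ n ∈ S, ‖F M a n‖) - p * ∑ n ∈ X, ‖F M a n‖))
  have h10 : Real.pi * abs ((∑ n ∈ S, ‖F M a n‖) - p * ∑ n ∈ X, ‖F M a n‖) ≤
      Real.pi * (4 * u * A) := by
    refine (h9.trans h7).trans (le_of_eq (by ring))
  exact le_of_mul_le_mul_left h10 Real.pi_pos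

/-- `I` samples the sums `F M a` -/
def Sm (N M : ℕ) (C : ℝ) (k : ℕ) (I : Finset ℕ) : Prop := ∀ a : ℕ → ℂ,
  abs ((∑ n ∈ I, ‖F M a n‖) - (k : ℝ) / ((N + 1 : ℕ) : ℝ) * ∑ n ∈ Icc N (2 * N), ‖F M a n‖) ≤
    C * Real.sqrt (k * Real.log N) * ∑ t ∈ range M, ‖a t‖

open Classical in
/-- **Sampling of exponential sums by random sets.** -/
theorem samp (A B : ℝ) (hA : 0 ≤ A) (hB : 0 ≤ B) : ∃ C : ℝ, 1 ≤ C ∧ ∀ N M : ℕ, 2 ≤ N →
    (M : ℝ) ≤ (N : ℝ) ^ B → ∀ k : ℕ, 1 ≤ k → k ≤ N + 1 →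
      (((powersetCard k (Icc N (2 * N))).filter (fun I => ¬ Sm N M C k I)).card : ℝ) ≤
        (N : ℝ) ^ (-A) * ((N + 1).choose k : ℕ) := by
  set K : ℝ := Real.sqrt (32 * (A + B + 6)) with hK
  have hK2 : K ^ 2 = 32 * (A + B + 6) := Real.sq_sqrt (by linarith)
  have hK0 : 0 ≤ K := Real.sqrt_nonneg _
  have hK1 : 1 ≤ K := by
    by_contra h
    rw [not_le] at h
    nlinarith
  refine ⟨4 * K, by linarith, fun N M hN hM k hk hkN => ?_⟩
  have hNr : (2 : ℝ) ≤ N := by exact_mod_cast hN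
  have hN0 : (0 : ℝ) < N := by linarith
  have hk0 : (0 : ℝ) < k := by exact_mod_cast hk
  have hlog : Real.log 2 ≤ Real.log N := Real.log_le_log (by norm_num) hNr
  have hlog2 : (1 : ℝ) / 2 ≤ Real.log 2 := by
    have := Real.log_two_gt_d9
    linarith
  have hlog0 : 0 < Real.log N := by linarith
  have hXc : (Icc N (2 * N)).card = N + 1 := by rw [Nat.card_Icc]; omega
  set u : ℝ := K * Real.sqrt (k * Real.log N) with hu
  have hu0 : 0 ≤ u := by positivity
  have hs2 : Real.sqrt (k * Real.log N) ^ 2 = k * Real.log N := Real.sq_sqrt (by positivity)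
  have hu2 : u ^ 2 = 32 * (A + B + 6) * (k * Real.log N) := by rw [hu, mul_pow, hK2, hs2]
  rcases le_or_gt u (4 * (k : ℝ)) with h4 | h4
  · have h5 := fix_dev (Icc N (2 * N)) k hk (by rw [hXc]; exact hkN) (gm M)
      (fun j n _ => gm_le M j n) u hu0 (by
        rw [hu2]
        have h6 : (k : ℝ) * (1 / 2) ≤ k * Real.log N :=
          mul_le_mul_of_nonneg_left (by linarith) hk0.le
        nlinarith) h4
    rw [hXc] at h5
    have h6 : (((powersetCard k (Icc N (2 * N))).filter (fun I => ¬ Sm N M (4 * K) k I)).card : ℝ) ≤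
        (((powersetCard k (Icc N (2 * N))).filter (fun S => ¬ Gd (gm M) (Icc N (2 * N))
          ((k : ℝ) / ((N + 1 : ℕ) : ℝ)) u S)).card : ℝ) := by
      refine Nat.cast_le.2 (card_le_card fun I hI => ?_)
      rw [mem_filter] at hI ⊢
      refine ⟨hI.1, fun hG => hI.2 fun a => ?_⟩
      refine (gd_cx M _ I _ u hG a).trans (le_of_eq ?_)
      rw [hu]
      ring
    refine h6.trans (h5.trans ?_)
    refine mul_le_mul_of_nonneg_right ?_ (Nat.cast_nonneg _)
    have h7 : Real.exp (-(u ^ 2 / (32 * k))) = (N : ℝ) ^ (-(A + B + 6)) := by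
      rw [Real.rpow_def_of_pos hN0, hu2]
      congr 1
      field_simp
    have h8 : (8 : ℝ) * (Fintype.card (Fin M × Bool) : ℕ) * (((N + 1 : ℕ) : ℝ) + 1) ≤
        (N : ℝ) ^ (B + 6) := by
      rw [Fintype.card_prod, Fintype.card_fin, Fintype.card_bool, Real.rpow_add hN0]
      push_cast
      have h9 : (16 : ℝ) * ((N : ℝ) + 2) ≤ (N : ℝ) ^ (6 : ℝ) := by
        have h10 : (N : ℝ) ^ (6 : ℝ) = (N : ℝ) * (N : ℝ) ^ 5 := by
          rw [show (6 : ℝ) = ((6 : ℕ) : ℝ) by norm_num, Real.rpow_natCast]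
          ring
        have h11 : (32 : ℝ) ≤ (N : ℝ) ^ 5 := by
          calc (32 : ℝ) = 2 ^ 5 := by norm_num
            _ ≤ _ := pow_le_pow_left₀ (by norm_num) hNr 5
        rw [h10]
        nlinarith
      calc (8 : ℝ) * ((M : ℝ) * 2) * ((N : ℝ) + 1 + 1) = M * (16 * ((N : ℝ) + 2)) := by ring
        _ ≤ (N : ℝ) ^ B * (N : ℝ) ^ (6 : ℝ) := mul_le_mul hM h9 (by positivity) (by positivity)
    rw [h7]
    calc (8 : ℝ) * (Fintype.card (Fin M × Bool) : ℕ) * (((N + 1 : ℕ) : ℝ) + 1) *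
          (N : ℝ) ^ (-(A + B + 6)) ≤ (N : ℝ) ^ (B + 6) * (N : ℝ) ^ (-(A + B + 6)) :=
          mul_le_mul_of_nonneg_right h8 (by positivity)
      _ = (N : ℝ) ^ (-A) := by
          rw [← Real.rpow_add hN0]
          congr 1
          ring
  · -- small `k`
    have h5 : ((powersetCard k (Icc N (2 * N))).filter (fun I => ¬ Sm N M (4 * K) k I)) = ∅ := by
      rw [filter_eq_empty_iff]
      intro I hI
      rw [not_not]
      intro a
      rw [mem_powersetCard] at hI
      set Q : ℝ := ∑ t ∈ range M, ‖a t‖ with hQ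
      have hQ0 : 0 ≤ Q := sum_nonneg fun t _ => norm_nonneg _
      have h6 : 0 ≤ ∑ n ∈ I, ‖F M a n‖ := sum_nonneg fun n _ => norm_nonneg _
      have h7 : ∑ n ∈ I, ‖F M a n‖ ≤ k * Q := by
        refine (sum_le_sum fun n _ => F_norm M a n).trans (le_of_eq ?_)
        rw [sum_const, hI.2, nsmul_eq_mul]
      have h8 : ∑ n ∈ Icc N (2 * N), ‖F M a n‖ ≤ ((N + 1 : ℕ) : ℝ) * Q := by
        refine (sum_le_sum fun n _ => F_norm M a n).trans (le_of_eq ?_)
        rw [sum_const, hXc, nsmul_eq_mul]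
      have h9 : 0 ≤ (k : ℝ) / ((N + 1 : ℕ) : ℝ) * ∑ n ∈ Icc N (2 * N), ‖F M a n‖ := by positivity
      have h10 : (k : ℝ) / ((N + 1 : ℕ) : ℝ) * ∑ n ∈ Icc N (2 * N), ‖F M a n‖ ≤ k * Q := by
        refine (mul_le_mul_of_nonneg_left h8 (by positivity)).trans (le_of_eq ?_)
        field_simp
      have h11 : (k : ℝ) * Q ≤ 4 * K * Real.sqrt (k * Real.log N) * Q := by
        refine mul_le_mul_of_nonneg_right ?_ hQ0
        nlinarith
      rw [abs_le]
      constructor <;> linarith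
    rw [h5, card_empty]
    push_cast
    positivity

end Pool.Agent.P8H75.SU
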