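import Pool.Agent.P8H75.SU.Cx
import Pool.Agent.P8H75.DS.C

set_option autoImplicit false
set_option linter.unusedSectionVars false

/-!
# Duality between coefficients and points
-/

namespace Pool.Agent.P8H75.SU

open Finset MeasureTheory
open Pool.Agent.P8H75.DS (D lv lv_mono lv_nonneg lv_card V_sq small)

theorem phase (z : ℂ) : ∃ w : ℂ, ‖w‖ ≤ 1 ∧ w * z = (‖z‖ : ℂ) := by
  by_cases hz : z = 0
  · exact ⟨0, by simp, by simp [hz]⟩
  · have h0 : (‖z‖ : ℂ) ≠ 0 := by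
      simpa using hz
    refine ⟨(starRingEnd ℂ) z / ‖z‖, ?_, ?_⟩
    · rw [norm_div, RCLike.norm_conj, Complex.norm_real, norm_norm]
      exact div_self_le_one _
    · rw [div_mul_eq_mul_div, div_eq_iff h0, mul_comm, Complex.mul_conj, Complex.normSq_eq_norm_sq]
      push_cast
      ring

theorem dualUp (N M : ℕ) (I : Finset ℕ) (hI : I ⊆ Icc N (2 * N)) (b : ℕ → ℂ)
    (hb : ∀ n ∈ Icc N (2 * N), ‖b n‖ ≤ 1) (hb0 : ∀ n ∈ Icc N (2 * N), n ∉ I → b n = 0) (V : ℝ)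
    (W : Finset ℕ) (hW : W ⊆ range M) (hV : ∀ t ∈ W, V < ‖D N b (t : ℕ)‖) :
    ∃ a : ℕ → ℂ, (∀ t, t ∉ W → a t = 0) ∧ (∀ t, ‖a t‖ ≤ 1) ∧
      V * W.card ≤ ∑ n ∈ I, ‖F M a n‖ := by
  choose w hw1 hw2 using phase
  set a : ℕ → ℂ := fun t => if t ∈ W then w (D N b (t : ℕ)) else 0 with ha
  refine ⟨a, fun t ht => by rw [ha]; simp only [if_neg ht], fun t => ?_, ?_⟩
  · rw [ha]
    dsimp only
    split_ifs
    · exact hw1 _
    · simp
  have h1 : V * W.card ≤ ∑ t ∈ W, ‖D N b (t : ℕ)‖ := by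
    rw [mul_comm, ← nsmul_eq_mul, ← sum_const]
    exact sum_le_sum fun t ht => (hV t ht).le
  have h2 : ((∑ t ∈ W, ‖D N b (t : ℕ)‖ : ℝ) : ℂ) = ∑ n ∈ I, b n * F M a n := by
    have h3 : ∀ t ∈ W, ((‖D N b (t : ℕ)‖ : ℝ) : ℂ) = a t * D N b (t : ℕ) := by
      intro t ht
      rw [ha]
      simp only [if_pos ht]
      exact (hw2 _).symm
    push_cast
    rw [sum_congr rfl h3]
    have h4 : ∑ t ∈ W, a t * D N b (t : ℕ) = ∑ t ∈ range M, a t * D N b (t : ℕ) := by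
      refine sum_subset hW fun t _ ht => ?_
      rw [ha]
      simp only [if_neg ht, zero_mul]
    rw [h4]
    have h5 : ∑ n ∈ I, b n * F M a n = ∑ n ∈ Icc N (2 * N), b n * F M a n := by
      refine sum_subset hI fun n hn hn' => ?_
      rw [hb0 n hn hn', zero_mul]
    rw [h5]
    unfold D F
    simp_rw [mul_sum]
    rw [sum_comm]
    refine sum_congr rfl fun n _ => sum_congr rfl fun t _ => ?_
    ring
  have h6 : ∑ t ∈ W, ‖D N b (t : ℕ)‖ = ‖∑ n ∈ I, b n * F M a n‖ := by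
    rw [← h2, Complex.norm_real, Real.norm_eq_abs,
      abs_of_nonneg (sum_nonneg fun t _ => norm_nonneg _)]
  rw [h6] at h1
  refine h1.trans ((norm_sum_le _ _).trans (sum_le_sum fun n hn => ?_))
  rw [norm_mul]
  exact mul_le_of_le_one_left (norm_nonneg _) (hb n (hI hn))

theorem dualDown (N M : ℕ) (J : Finset ℕ) (hJ : J ⊆ Icc N (2 * N)) (a : ℕ → ℂ)
    (ha : ∀ t, ‖a t‖ ≤ 1) (W : Finset ℕ) (hW : W ⊆ range M) (ha0 : ∀ t, t ∉ W → a t = 0) :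
    ∃ b : ℕ → ℂ, (∀ n, ‖b n‖ ≤ 1) ∧ (∀ n, n ∉ J → b n = 0) ∧
      ∑ n ∈ J, ‖F M a n‖ ≤ ∑ t ∈ W, ‖D N b (t : ℕ)‖ := by
  choose w hw1 hw2 using phase
  set b : ℕ → ℂ := fun n => if n ∈ J then w (F M a n) else 0 with hb
  refine ⟨b, fun n => ?_, fun n hn => by rw [hb]; simp only [if_neg hn], ?_⟩
  · rw [hb]
    dsimp only
    split_ifs
    · exact hw1 _
    · simp
  have h2 : ((∑ n ∈ J, ‖F M a n‖ : ℝ) : ℂ) = ∑ t ∈ W, a t * D N b (t : ℕ) := by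
    have h3 : ∀ n ∈ J, ((‖F M a n‖ : ℝ) : ℂ) = b n * F M a n := by
      intro n hn
      rw [hb]
      simp only [if_pos hn]
      exact (hw2 _).symm
    push_cast
    rw [sum_congr rfl h3]
    have h4 : ∑ t ∈ W, a t * D N b (t : ℕ) = ∑ t ∈ range M, a t * D N b (t : ℕ) := by
      refine sum_subset hW fun t _ ht => ?_
      rw [ha0 t ht, zero_mul]
    rw [h4]
    have h5 : ∑ n ∈ J, b n * F M a n = ∑ n ∈ Icc N (2 * N), b n * F M a n := by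
      refine sum_subset hJ fun n _ hn' => ?_
      rw [hb]
      simp only [if_neg hn', zero_mul]
    rw [h5]
    unfold D F
    simp_rw [mul_sum]
    rw [sum_comm]
    refine sum_congr rfl fun n _ => sum_congr rfl fun t _ => ?_
    ring
  have h6 : ∑ n ∈ J, ‖F M a n‖ = ‖∑ t ∈ W, a t * D N b (t : ℕ)‖ := by
    rw [← h2, Complex.norm_real, Real.norm_eq_abs,
      abs_of_nonneg (sum_nonneg fun t _ => norm_nonneg _)]
  rw [h6]
  refine (norm_sum_le _ _).trans (sum_le_sum fun t _ => ?_)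
  rw [norm_mul]
  exact mul_le_of_le_one_left (norm_nonneg _) (ha t)

theorem layer_one (x V₀ : ℝ) (J : ℕ) (hV : 0 < V₀) (hx : x ≤ 2 ^ J * V₀) :
    x ≤ V₀ + ∑ j ∈ range J, 2 ^ j * V₀ * ind (2 ^ j * V₀ < x) := by
  induction J generalizing x with
  | zero => simpa using hx
  | succ J ih =>
    rw [sum_range_succ]
    by_cases h : 2 ^ J * V₀ < x
    · rw [ind_true h]
      have h1 := ih (2 ^ J * V₀) le_rfl
      have h2 : ∑ j ∈ range J, 2 ^ j * V₀ * ind (2 ^ j * V₀ < 2 ^ J * V₀) ≤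
          ∑ j ∈ range J, 2 ^ j * V₀ * ind (2 ^ j * V₀ < x) := by
        refine sum_le_sum fun j _ => mul_le_mul_of_nonneg_left (ind_mono fun h' => h'.trans h)
          (by positivity)
      have h3 : (2 : ℝ) ^ (J + 1) * V₀ = 2 ^ J * V₀ + 2 ^ J * V₀ := by ring
      linarith
    · rw [ind_false h, mul_zero, add_zero]
      exact ih x (not_lt.1 h)

open Classical in
theorem layer (M : ℕ) (W : Finset ℕ) (hW : W ⊆ range M) (g : ℕ → ℝ) (V₀ Q : ℝ) (hV : 0 < V₀)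
    (hQ : 0 ≤ Q)
    (h : ∀ V : ℝ, V₀ ≤ V → (((range M).filter (fun t => V < g t)).card : ℝ) ≤ Q / V ^ 2) :
    ∑ t ∈ W, g t ≤ W.card * V₀ + 2 * Q / V₀ := by
  obtain ⟨J, hJ⟩ : ∃ J : ℕ, ∀ t ∈ W, g t ≤ 2 ^ J * V₀ := by
    obtain ⟨J, hJ⟩ := pow_unbounded_of_one_lt ((∑ t ∈ W, |g t|) / V₀) (by norm_num : (1 : ℝ) < 2)
    refine ⟨J, fun t ht => ?_⟩
    rw [div_lt_iff₀ hV] at hJ
    refine (le_abs_self _).trans ((single_le_sum (fun i _ => abs_nonneg (g i)) ht).trans hJ.le)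
  have h1 : ∑ t ∈ W, g t ≤ ∑ t ∈ W, (V₀ + ∑ j ∈ range J, 2 ^ j * V₀ * ind (2 ^ j * V₀ < g t)) :=
    sum_le_sum fun t ht => layer_one (g t) V₀ J hV (hJ t ht)
  rw [sum_add_distrib, sum_const, nsmul_eq_mul, sum_comm] at h1
  refine h1.trans (add_le_add_right ?_ _)
  have h2 : ∀ j ∈ range J, ∑ t ∈ W, 2 ^ j * V₀ * ind (2 ^ j * V₀ < g t) ≤
      Q / V₀ * (1 / 2) ^ j := by
    intro j _
    rw [← mul_sum]
    have h3 : ∑ t ∈ W, ind (2 ^ j * V₀ < g t) ≤ Q / (2 ^ j * V₀) ^ 2 := by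
      have h4 : (1 : ℝ) * V₀ ≤ 2 ^ j * V₀ :=
        mul_le_mul_of_nonneg_right (one_le_pow₀ (by norm_num)) hV.le
      rw [one_mul] at h4
      refine le_trans ?_ (h _ h4)
      have h5 : ∑ t ∈ W, ind (2 ^ j * V₀ < g t) ≤ ∑ t ∈ range M, ind (2 ^ j * V₀ < g t) :=
        sum_le_sum_of_subset_of_nonneg hW fun t _ _ => ind_nonneg _
      refine h5.trans (le_of_eq ?_)
      unfold ind
      rw [← sum_filter, sum_const, nsmul_eq_mul, mul_one]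
    calc 2 ^ j * V₀ * ∑ t ∈ W, ind (2 ^ j * V₀ < g t) ≤ 2 ^ j * V₀ * (Q / (2 ^ j * V₀) ^ 2) :=
          mul_le_mul_of_nonneg_left h3 (by positivity)
      _ = Q / V₀ * (1 / 2) ^ j := by
          rw [one_div, inv_pow]
          field_simp
  refine (sum_le_sum h2).trans ?_
  rw [← mul_sum]
  have h6 : ∑ j ∈ range J, (1 / 2 : ℝ) ^ j ≤ 2 := by
    have := geom_sum_eq (show (1 / 2 : ℝ) ≠ 1 by norm_num) J
    rw [this]
    have h7 : (0 : ℝ) ≤ (1 / 2) ^ J := by positivity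
    rw [div_le_iff_of_neg (by norm_num)]
    linarith
  calc Q / V₀ * ∑ j ∈ range J, (1 / 2 : ℝ) ^ j ≤ Q / V₀ * 2 :=
        mul_le_mul_of_nonneg_left h6 (by positivity)
    _ = 2 * Q / V₀ := by ring

/-- `|D| ≤` the size of the support -/
theorem D_le (N : ℕ) (b : ℕ → ℂ) (hb : ∀ n, ‖b n‖ ≤ 1) (I : Finset ℕ) (hI : I ⊆ Icc N (2 * N))
    (hb0 : ∀ n, n ∉ I → b n = 0) (t : ℝ) : ‖D N b t‖ ≤ I.card := by
  unfold D
  rw [← sum_subset hI fun n _ hn => by rw [hb0 n hn, zero_mul]]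
  refine (norm_sum_le _ _).trans ?_
  have : ∀ n ∈ I, ‖b n * Complex.exp (((t * Real.log (n : ℝ) : ℝ) : ℂ) * Complex.I)‖ ≤ 1 := by
    intro n _
    rw [norm_mul, Complex.norm_exp_ofReal_mul_I, mul_one]
    exact hb n
  refine (sum_le_sum this).trans (le_of_eq ?_)
  simp

theorem lv_zero (N : ℕ) (b : ℕ → ℂ) (hb : ∀ n, ‖b n‖ ≤ 1) (I : Finset ℕ)
    (hI : I ⊆ Icc N (2 * N)) (hb0 : ∀ n, n ∉ I → b n = 0) (V : ℝ) (hV : (I.card : ℝ) ≤ V)
    (R : Finset ℕ) : lv N b V R = 0 := by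
  classical
  unfold lv
  rw [Nat.cast_eq_zero, card_eq_zero, filter_eq_empty_iff]
  intro t _
  rw [not_lt]
  exact (D_le N b hb I hI hb0 _).trans hV

end Pool.Agent.P8H75.SU
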