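import Pool.Agent.P8H75.SU.Tail

set_option autoImplicit false
set_option linter.unusedSectionVars false

/-!
# Subsets of fixed size
-/

namespace Pool.Agent.P8H75.SU

open Finset

variable {α : Type*} [DecidableEq α]

/-- the unnormalised binomial probabilities -/
def bt (n k j : ℕ) : ℕ := n.choose j * k ^ j * (n - k) ^ (n - j)

theorem bt_up (n k j : ℕ) (hk : k ≤ n) (hj : j < k) : bt n k j ≤ bt n k (j + 1) := by
  unfold bt
  have h1 : n.choose (j + 1) * (j + 1) = n.choose j * (n - j) := Nat.choose_succ_right_eq n j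
  have h2 : (n - k) ^ (n - j) = (n - k) * (n - k) ^ (n - (j + 1)) := by
    rw [← pow_succ']
    congr 1
    omega
  refine le_of_mul_le_mul_right ?_ (show 0 < j + 1 by omega)
  calc n.choose j * k ^ j * (n - k) ^ (n - j) * (j + 1) =
        (n.choose j * k ^ j * (n - k) ^ (n - (j + 1))) * ((n - k) * (j + 1)) := by
        rw [h2]; ring
    _ ≤ (n.choose j * k ^ j * (n - k) ^ (n - (j + 1))) * ((n - j) * k) :=
        Nat.mul_le_mul_left _ (Nat.mul_le_mul (by omega) (by omega))
    _ = (n.choose j * (n - j)) * (k ^ (j + 1) * (n - k) ^ (n - (j + 1))) := by ring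
    _ = (n.choose (j + 1) * (j + 1)) * (k ^ (j + 1) * (n - k) ^ (n - (j + 1))) := by rw [h1]
    _ = _ := by ring

theorem bt_down (n k j : ℕ) (hj : k ≤ j) (hjn : j < n) : bt n k (j + 1) ≤ bt n k j := by
  unfold bt
  have h1 : n.choose (j + 1) * (j + 1) = n.choose j * (n - j) := Nat.choose_succ_right_eq n j
  have h2 : (n - k) ^ (n - j) = (n - k) * (n - k) ^ (n - (j + 1)) := by
    rw [← pow_succ']
    congr 1
    omega
  refine le_of_mul_le_mul_right ?_ (show 0 < j + 1 by omega)
  calc n.choose (j + 1) * k ^ (j + 1) * (n - k) ^ (n - (j + 1)) * (j + 1) =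
        (n.choose (j + 1) * (j + 1)) * (k ^ (j + 1) * (n - k) ^ (n - (j + 1))) := by ring
    _ = (n.choose j * (n - j)) * (k ^ (j + 1) * (n - k) ^ (n - (j + 1))) := by rw [h1]
    _ = (n.choose j * k ^ j * (n - k) ^ (n - (j + 1))) * ((n - j) * k) := by ring
    _ ≤ (n.choose j * k ^ j * (n - k) ^ (n - (j + 1))) * ((n - k) * (j + 1)) :=
        Nat.mul_le_mul_left _ (Nat.mul_le_mul (by omega) (by omega))
    _ = _ := by rw [h2]; ring

theorem bt_max (n k j : ℕ) (hk : k ≤ n) (hj : j ≤ n) : bt n k j ≤ bt n k k := by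
  rcases le_total j k with h | h
  · obtain ⟨d, hd⟩ := Nat.exists_eq_add_of_le h
    clear hj
    induction d generalizing j with
    | zero => rw [show j = k by omega]
    | succ d ih =>
      refine (bt_up n k j hk (by omega)).trans (ih (j + 1) (by omega) (by omega))
  · obtain ⟨d, hd⟩ := Nat.exists_eq_add_of_le h
    induction d generalizing j with
    | zero => rw [show j = k by omega]
    | succ d ih =>
      have h1 := bt_down n k (k + d) (by omega) (by omega)
      rw [hd, show k + (d + 1) = k + d + 1 by ring]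
      exact h1.trans (ih (k + d) (by omega) (by omega) rfl)

theorem mode (n k : ℕ) (hk : k ≤ n) :
    n ^ n ≤ (n + 1) * (n.choose k * (k ^ k * (n - k) ^ (n - k))) := by
  have h1 : n ^ n = ∑ j ∈ range (n + 1), bt n k j := by
    have h2 := add_pow k (n - k) n
    rw [show k + (n - k) = n by omega] at h2
    rw [h2]
    refine sum_congr rfl fun j _ => ?_
    unfold bt
    push_cast
    ring
  rw [h1]
  refine (sum_le_sum fun j hj => bt_max n k j hk (by
    have := mem_range.1 hj
    omega)).trans ?_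
  rw [sum_const, card_range, smul_eq_mul]
  unfold bt
  rw [mul_assoc (n.choose k)]

/-- from random sets of random size to random sets of fixed size -/
theorem fixed (X : Finset α) (k : ℕ) (hk : 1 ≤ k) (hkX : k ≤ X.card) (Bad : Finset α → Prop)
    [DecidablePred Bad] :
    (((powersetCard k X).filter Bad).card : ℝ) ≤ ((X.card : ℝ) + 1) * (X.card.choose k : ℕ) *
      ∑ S ∈ X.powerset, wt ((k : ℝ) / X.card) X S * ind (Bad S) := by
  set n := X.card with hn
  have hn0 : (0 : ℝ) < n := by exact_mod_cast (by omega : 0 < n)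
  have hk0 : (0 : ℝ) < k := by exact_mod_cast hk
  have hkn : (k : ℝ) ≤ n := by exact_mod_cast hkX
  have hp0 : 0 ≤ (k : ℝ) / n := by positivity
  have hp1 : (k : ℝ) / n ≤ 1 := (div_le_one hn0).2 hkn
  set w : ℝ := ((k : ℝ) / n) ^ k * (1 - (k : ℝ) / n) ^ (n - k) with hw
  have h1 : (((powersetCard k X).filter Bad).card : ℝ) * w ≤
      ∑ S ∈ X.powerset, wt ((k : ℝ) / n) X S * ind (Bad S) := by
    have h2 : (((powersetCard k X).filter Bad).card : ℝ) * w =
        ∑ S ∈ (powersetCard k X).filter Bad, wt ((k : ℝ) / n) X S * ind (Bad S) := by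
      rw [← nsmul_eq_mul, ← sum_const]
      refine sum_congr rfl fun S hS => ?_
      rw [mem_filter, mem_powersetCard] at hS
      rw [ind_true hS.2, mul_one]
      unfold wt
      rw [hS.1.2, card_sdiff_of_subset hS.1.1, hS.1.2]
    rw [h2]
    refine sum_le_sum_of_subset_of_nonneg ?_ fun S _ _ =>
      mul_nonneg (wt_nonneg hp0 hp1 X S) (ind_nonneg _)
    intro S hS
    rw [mem_filter, mem_powersetCard] at hS
    exact mem_powerset.2 hS.1.1
  have h3 : 1 ≤ ((n : ℝ) + 1) * (n.choose k : ℕ) * w := by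
    have h4 := mode n k hkX
    have h5 : (n : ℝ) ^ n ≤ ((n : ℝ) + 1) * ((n.choose k : ℕ) * ((k : ℝ) ^ k *
        ((n : ℝ) - k) ^ (n - k))) := by
      have h6 : ((n - k : ℕ) : ℝ) = (n : ℝ) - k := by
        rw [Nat.cast_sub hkX]
      rw [← h6]
      exact_mod_cast h4
    have h7 : w = ((k : ℝ) ^ k * ((n : ℝ) - k) ^ (n - k)) / (n : ℝ) ^ n := by
      rw [hw, show (1 : ℝ) - (k : ℝ) / n = ((n : ℝ) - k) / n by field_simp, div_pow, div_pow]
      rw [div_mul_div_comm, ← pow_add]
      congr 2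
      omega
    rw [h7, ← mul_div_assoc, le_div_iff₀ (by positivity), one_mul]
    linarith
  have h8 : (0 : ℝ) ≤ (((powersetCard k X).filter Bad).card : ℝ) := Nat.cast_nonneg _
  calc (((powersetCard k X).filter Bad).card : ℝ) =
        (((powersetCard k X).filter Bad).card : ℝ) * 1 := (mul_one _).symm
    _ ≤ (((powersetCard k X).filter Bad).card : ℝ) * (((n : ℝ) + 1) * (n.choose k : ℕ) * w) :=
        mul_le_mul_of_nonneg_left h3 h8
    _ = (((n : ℝ) + 1) * (n.choose k : ℕ)) * ((((powersetCard k X).filter Bad).card : ℝ) * w) := by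
        ring
    _ ≤ _ := mul_le_mul_of_nonneg_left h1 (by positivity)

/-- the good event: the set `S` samples all functions of the hull up to `u` -/
def Gd {ι : Type*} [Fintype ι] (γ : ι → α → ℝ) (X : Finset α) (p u : ℝ) (S : Finset α) : Prop :=
  ∀ c : {c : ι → ℝ // ∑ j, |c j| ≤ 1},
    abs ((∑ n ∈ S, |cv γ c n|) - p * ∑ n ∈ X, |cv γ c n|) ≤ u

open Classical in
theorem fix_dev {ι : Type*} [Fintype ι] (X : Finset α) (k : ℕ) (hk : 1 ≤ k) (hkX : k ≤ X.card)
    (γ : ι → α → ℝ) (hγ : ∀ j, ∀ n ∈ X, |γ j n| ≤ 1) (u : ℝ) (hu0 : 0 ≤ u)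
    (hu : 12 * (k : ℝ) ≤ u ^ 2) (hu' : u ≤ 4 * (k : ℝ)) :
    (((powersetCard k X).filter (fun S => ¬ Gd γ X ((k : ℝ) / X.card) u S)).card : ℝ) ≤
      8 * Fintype.card ι * ((X.card : ℝ) + 1) * Real.exp (-(u ^ 2 / (32 * k))) *
        (X.card.choose k : ℕ) := by
  have hn0 : (0 : ℝ) < X.card := by exact_mod_cast (by omega : 0 < X.card)
  have hk0 : (0 : ℝ) < k := by exact_mod_cast hk
  have hkn : (k : ℝ) ≤ X.card := by exact_mod_cast hkX
  have hp0 : 0 < (k : ℝ) / X.card := by positivity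
  have hp1 : (k : ℝ) / X.card ≤ 1 := (div_le_one hn0).2 hkn
  have hX : X.Nonempty := card_pos.1 (by omega)
  have hm : (k : ℝ) / X.card * X.card = k := by field_simp
  refine (fixed X k hk hkX _).trans ?_
  have h1 := dev hp0 hp1 X hX γ hγ u hu0 (by rw [hm]; exact hu) (by rw [hm]; exact hu') 1
    (Or.inl rfl)
  have h2 := dev hp0 hp1 X hX γ hγ u hu0 (by rw [hm]; exact hu) (by rw [hm]; exact hu') (-1)
    (Or.inr rfl)
  rw [hm] at h1 h2
  have h3 : ∑ S ∈ X.powerset, wt ((k : ℝ) / X.card) X S *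
      ind (¬ Gd γ X ((k : ℝ) / X.card) u S) ≤
      8 * Fintype.card ι * Real.exp (-(u ^ 2 / (32 * k))) := by
    refine le_trans ?_ ((add_le_add h1 h2).trans (le_of_eq (by ring)))
    rw [← sum_add_distrib]
    refine sum_le_sum fun S _ => ?_
    rw [← mul_add]
    refine mul_le_mul_of_nonneg_left ?_ (wt_nonneg hp0.le hp1 X S)
    by_cases hG : Gd γ X ((k : ℝ) / X.card) u S
    · rw [ind_false (not_not.2 hG)]
      exact add_nonneg (ind_nonneg _) (ind_nonneg _)
    · rw [ind_true hG]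
      unfold Gd at hG
      push Not at hG
      obtain ⟨c, hc⟩ := hG
      rcases lt_abs.1 hc with h | h
      · rw [ind_true ⟨c, by rw [one_mul]; exact h⟩]
        have := ind_nonneg (∃ c, u < -1 * (∑ n ∈ S, |cv γ c n| -
          (k : ℝ) / X.card * ∑ n ∈ X, |cv γ c n|))
        linarith
      · rw [ind_true (P := ∃ c, u < -1 * (∑ n ∈ S, |cv γ c n| -
          (k : ℝ) / X.card * ∑ n ∈ X, |cv γ c n|)) ⟨c, by rw [neg_one_mul]; exact h⟩]
        have := ind_nonneg (∃ c, u < 1 * (∑ n ∈ S, |cv γ c n| -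
          (k : ℝ) / X.card * ∑ n ∈ X, |cv γ c n|))
        linarith
  refine (mul_le_mul_of_nonneg_left h3 (by positivity)).trans (le_of_eq ?_)
  ring

end Pool.Agent.P8H75.SU
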