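import Pool.Agent.P8H75.SU.Ber

set_option autoImplicit false
set_option linter.unusedSectionVars false

/-!
# Symmetrization
-/

namespace Pool.Agent.P8H75.SU

open Finset

variable {α : Type*} [DecidableEq α]

/-- swap two sets on `D` -/
def sw (D : Finset α) (q : Finset α × Finset α) : Finset α × Finset α :=
  ((q.1 \ D) ∪ (q.2 ∩ D), (q.2 \ D) ∪ (q.1 ∩ D))

theorem sw_sw (D : Finset α) (q : Finset α × Finset α) : sw D (sw D q) = q := by
  ext x
  · simp only [sw, mem_union, mem_sdiff, mem_inter]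
    tauto
  · simp only [sw, mem_union, mem_sdiff, mem_inter]
    tauto

/-- indicator of a set as a real number -/
noncomputable def io (S : Finset α) (n : α) : ℝ := if n ∈ S then 1 else 0

theorem sw_diff (D : Finset α) (q : Finset α × Finset α) (n : α) :
    io (sw D q).1 n - io (sw D q).2 n = sg D n * (io q.1 n - io q.2 n) := by
  unfold io sg sw
  by_cases h1 : n ∈ D <;> by_cases h2 : n ∈ q.1 <;> by_cases h3 : n ∈ q.2 <;> simp [h1, h2, h3]

theorem sum_io (X S : Finset α) (hS : S ⊆ X) (g : α → ℝ) :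
    ∑ n ∈ X, io S n * g n = ∑ n ∈ S, g n := by
  unfold io
  simp only [ite_mul, one_mul, zero_mul]
  rw [← sum_filter]
  congr 1
  ext n
  simp only [mem_filter]
  exact ⟨fun h => h.2, fun h => ⟨hS h, h⟩⟩

theorem io_card (X S : Finset α) (hS : S ⊆ X) : ∑ n ∈ X, io S n = S.card := by
  have := sum_io X S hS (fun _ => 1)
  simpa using this

theorem sw_subset {X D : Finset α} {q : Finset α × Finset α} (h1 : q.1 ⊆ X) (h2 : q.2 ⊆ X) :
    (sw D q).1 ⊆ X ∧ (sw D q).2 ⊆ X := by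
  refine ⟨?_, ?_⟩
  · intro x hx
    simp only [sw, mem_union, mem_sdiff, mem_inter] at hx
    rcases hx with h | h
    · exact h1 h.1
    · exact h2 h.1
  · intro x hx
    simp only [sw, mem_union, mem_sdiff, mem_inter] at hx
    rcases hx with h | h
    · exact h2 h.1
    · exact h1 h.1

theorem wt_eq (p : ℝ) {X S : Finset α} (hS : S ⊆ X) :
    wt p X S = ∏ n ∈ X, (io S n * p + (1 - io S n) * (1 - p)) := by
  unfold wt
  rw [← prod_sdiff hS, mul_comm]
  congr 1
  · rw [← prod_const]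
    refine prod_congr rfl fun n hn => ?_
    unfold io
    rw [if_neg (mem_sdiff.1 hn).2]
    ring
  · rw [← prod_const]
    refine prod_congr rfl fun n hn => ?_
    unfold io
    rw [if_pos hn]
    ring

theorem wt_sw (p : ℝ) {X D : Finset α} {q : Finset α × Finset α} (h1 : q.1 ⊆ X) (h2 : q.2 ⊆ X) :
    wt p X (sw D q).1 * wt p X (sw D q).2 = wt p X q.1 * wt p X q.2 := by
  obtain ⟨h3, h4⟩ := sw_subset (D := D) h1 h2
  rw [wt_eq p h1, wt_eq p h2, wt_eq p h3, wt_eq p h4, ← prod_mul_distrib, ← prod_mul_distrib]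
  refine prod_congr rfl fun n _ => ?_
  unfold io sw
  by_cases h5 : n ∈ D <;> by_cases h6 : n ∈ q.1 <;> by_cases h7 : n ∈ q.2 <;>
    simp [h5, h6, h7] <;> ring

/-- invariance under swapping -/
theorem swap_inv (p : ℝ) (X D : Finset α) (F : Finset α × Finset α → ℝ) :
    ∑ q ∈ X.powerset ×ˢ X.powerset, wt p X q.1 * wt p X q.2 * F (sw D q) =
      ∑ q ∈ X.powerset ×ˢ X.powerset, wt p X q.1 * wt p X q.2 * F q := by
  refine sum_bij' (fun q _ => sw D q) (fun q _ => sw D q) ?_ ?_ ?_ ?_ ?_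
  · intro q hq
    rw [mem_product, mem_powerset, mem_powerset] at hq ⊢
    exact sw_subset hq.1 hq.2
  · intro q hq
    rw [mem_product, mem_powerset, mem_powerset] at hq ⊢
    exact sw_subset hq.1 hq.2
  · intro q _
    exact sw_sw D q
  · intro q _
    exact sw_sw D q
  · intro q hq
    rw [mem_product, mem_powerset, mem_powerset] at hq
    rw [wt_sw p hq.1 hq.2]

/-- the exponential moment of a sum over a random set -/
theorem expm {p : ℝ} (h0 : 0 ≤ p) (h1 : p ≤ 1) (X : Finset α) (g : α → ℝ)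
    (hg : ∀ n ∈ X, 0 ≤ g n ∧ g n ≤ 1) (l : ℝ) (hl : |l| ≤ 1) :
    ∑ S ∈ X.powerset, wt p X S * Real.exp (l * ∑ n ∈ S, g n) ≤
      Real.exp (l * (p * ∑ n ∈ X, g n) + p * l ^ 2 * X.card) := by
  have e : ∀ S ∈ X.powerset, wt p X S * Real.exp (l * ∑ n ∈ S, g n) =
      wt p X S * ∏ n ∈ S, Real.exp (l * g n) := by
    intro S _
    rw [mul_sum, Real.exp_sum]
  rw [sum_congr rfl e, gen]
  have e2 : l * (p * ∑ n ∈ X, g n) + p * l ^ 2 * X.card =
      ∑ n ∈ X, (l * (p * g n) + p * l ^ 2) := by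
    rw [sum_add_distrib, sum_const, nsmul_eq_mul, mul_sum, mul_sum]
    ring
  rw [e2, Real.exp_sum]
  refine prod_le_prod (fun n _ => ?_) fun n hn => ?_
  · have : 0 ≤ 1 - p := by linarith
    positivity
  · obtain ⟨g0, g1⟩ := hg n hn
    have hx : |l * g n| ≤ 1 := by
      rw [abs_mul, abs_of_nonneg g0]
      exact mul_le_one₀ hl g0 g1
    have h2 := Real.abs_exp_sub_one_sub_id_le hx
    have h3 : Real.exp (l * g n) ≤ 1 + l * g n + (l * g n) ^ 2 := by
      have := (abs_le.1 h2).2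
      linarith
    have h4 : (l * g n) ^ 2 ≤ l ^ 2 := by
      rw [mul_pow]
      have : g n ^ 2 ≤ 1 := pow_le_one₀ g0 g1
      nlinarith [sq_nonneg l]
    calc p * Real.exp (l * g n) + (1 - p) ≤ p * (1 + l * g n + l ^ 2) + (1 - p) := by
          have := mul_le_mul_of_nonneg_left (h3.trans (add_le_add_right h4 _)) h0
          linarith
      _ = (l * (p * g n) + p * l ^ 2) + 1 := by ring
      _ ≤ _ := Real.add_one_le_exp _

/-- deviations of the second copy -/
theorem ghost {p : ℝ} (h0 : 0 < p) (h1 : p ≤ 1) (X : Finset α) (hX : X.Nonempty) (g : α → ℝ)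
    (hg : ∀ n ∈ X, 0 ≤ g n ∧ g n ≤ 1) (u : ℝ) (hu0 : 0 ≤ u) (hu : 12 * (p * X.card) ≤ u ^ 2)
    (hu' : u ≤ 4 * (p * X.card)) (s : ℝ) (hs : s = 1 ∨ s = -1) :
    ∑ S ∈ X.powerset, wt p X S *
      ind (u / 2 < s * (∑ n ∈ S, g n - p * ∑ n ∈ X, g n)) ≤ 1 / 2 := by
  have hc : (0 : ℝ) < X.card := by exact_mod_cast card_pos.2 hX
  set m : ℝ := p * X.card with hm
  have hm0 : 0 < m := by positivity
  set l : ℝ := u / (4 * m) with hl
  have hl0 : 0 ≤ l := by positivity
  have hl1 : l ≤ 1 := by rw [hl, div_le_one (by positivity)]; exact hu'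
  have hs2 : s ^ 2 = 1 := by rcases hs with h | h <;> rw [h] <;> norm_num
  have hsl : |s * l| ≤ 1 := by
    rw [abs_mul, abs_of_nonneg hl0]
    rcases hs with h | h <;> rw [h] <;> simpa using hl1
  have h3 := expm h0.le h1 X g hg (s * l) hsl
  have h4 : ∀ S ∈ X.powerset, wt p X S *
      ind (u / 2 < s * (∑ n ∈ S, g n - p * ∑ n ∈ X, g n)) ≤
      (wt p X S * Real.exp (s * l * ∑ n ∈ S, g n)) *
        Real.exp (-(s * l * (p * ∑ n ∈ X, g n)) - l * (u / 2)) := by
    intro S _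
    rw [mul_assoc]
    refine mul_le_mul_of_nonneg_left ?_ (wt_nonneg h0.le h1 X S)
    rw [← Real.exp_add]
    by_cases hP : u / 2 < s * (∑ n ∈ S, g n - p * ∑ n ∈ X, g n)
    · rw [ind_true hP]
      refine Real.one_le_exp ?_
      have := mul_le_mul_of_nonneg_left hP.le hl0
      nlinarith
    · rw [ind_false hP]
      positivity
  refine (sum_le_sum h4).trans ?_
  rw [← sum_mul]
  refine (mul_le_mul_of_nonneg_right h3 (Real.exp_pos _).le).trans ?_
  rw [← Real.exp_add]
  have e : s * l * (p * ∑ n ∈ X, g n) + p * (s * l) ^ 2 * X.card +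
      (-(s * l * (p * ∑ n ∈ X, g n)) - l * (u / 2)) = -(u ^ 2 / (16 * m)) := by
    rw [mul_pow, hs2]
    rw [hl, hm]
    field_simp
    ring
  rw [e]
  have h5 : (3 / 4 : ℝ) ≤ u ^ 2 / (16 * m) := by
    rw [le_div_iff₀ (by positivity)]
    linarith
  have h6 : Real.exp (-(u ^ 2 / (16 * m))) ≤ Real.exp (-(3 / 4)) :=
    Real.exp_le_exp.2 (neg_le_neg h5)
  refine h6.trans ?_
  rw [Real.exp_neg, inv_le_comm₀ (Real.exp_pos _) (by norm_num)]
  have h7 : Real.log 2 ≤ 3 / 4 := by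
    have := Real.log_two_lt_d9
    linarith
  have h8 := Real.exp_le_exp.2 h7
  rw [Real.exp_log (by norm_num)] at h8
  norm_num
  exact h8

end Pool.Agent.P8H75.SU
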